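import Pool.Agent.Helper19.ND.FPOSa

/-!
# ND2, part FPOS: positivity between the walls
-/

set_option autoImplicit false

namespace Pool.Agent.Helper19.ND.FPOS

open Pool.Agent.Helper28.ND Pool.Agent.Helper19.ND Pool.Agent.Helper19.ND.MAX MeasureTheory Set
  Filter Topology

/-- reversal of time -/
theorem dual_of_fsol {d : ℕ} {T : ℝ} {b : ℝ → (Fin d → ℝ) → (Fin d → ℝ)}
    {f : ℝ → (Fin d → ℝ) → ℝ} {u : ℝ → (Fin d → ℝ) → ℝ} {v : ℝ → (Fin d → ℝ) → (Fin d → ℝ)}
    (hs : FSol d T b f u v) : ∃ B : ℝ,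
    Dual d (1 + T) B B (fun t x i => -b (1 + T - t) x i) (fun t x => f (1 + T - t) x)
      (fun t x => v (1 + T - t) x) ∧
    (∀ t x, FF (fun t x i => -b (1 + T - t) x i) (fun t x => f (1 + T - t) x)
      (fun t x => v (1 + T - t) x) t x = RF T b f v t x) ∧
    ∀ t x, u t x = Phi (1 + T) (FF (fun t x i => -b (1 + T - t) x i) (fun t x => f (1 + T - t) x)
      (fun t x => v (1 + T - t) x)) (1 + T - t) x := by
  obtain ⟨B, hB⟩ := hs.dat.bdd
  have hFF : FF (fun t x i => -b (1 + T - t) x i) (fun t x => f (1 + T - t) x)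
      (fun t x => v (1 + T - t) x) = RF T b f v := by
    funext t x
    unfold FF RF
    simp only [neg_mul, Finset.sum_neg_distrib]
    ring
  have hrev : Measurable fun z : ℝ × (Fin d → ℝ) => ((1 + T - z.1, z.2) : ℝ × (Fin d → ℝ)) :=
    (measurable_const.sub measurable_fst).prodMk measurable_snd
  refine ⟨B, ⟨⟨?_, ?_, ?_, ?_, ?_, ?_, ?_, ?_⟩, ?_, ?_, ?_, ?_⟩, fun t x => by rw [hFF],
    fun t x => by rw [hFF]; exact hs.eu t x⟩
  · exact (hs.dat.mb.comp hrev).neg
  · intro t x k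
    funext i
    change -b (1 + T - t) (fun i => x i + (k i : ℝ)) i = -b (1 + T - t) x i
    rw [hs.dat.pb (1 + T - t) x k]
  · intro t x i
    rw [abs_neg]
    exact (hB _ _).2 i
  · intro t ht x i
    change -b (1 + T - t) x i = 0
    rw [hs.dat.sb (1 + T - t) (by
      rcases ht with h | h
      · right; linarith
      · left; linarith) x i, neg_zero]
  · exact hs.dat.mf.comp hrev
  · intro t x k
    exact hs.dat.pf (1 + T - t) x k
  · intro t x
    exact (hB _ _).1
  · intro t ht x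
    exact hs.dat.sf (1 + T - t) (by
      rcases ht with h | h
      · right; linarith
      · left; linarith) x
  · exact hs.mv.comp hrev
  · intro t x k
    exact hs.pv (1 + T - t) x k
  · obtain ⟨C, hC⟩ := hs.bv
    exact ⟨C, fun t x i => hC _ _ _⟩
  · intro t x i
    rw [hFF]
    have h1 := hs.ev (1 + T - t) x i
    rwa [sub_sub_cancel] at h1

theorem main (hWEQ : S_WEQ) (hKB : S_KB) (hMOLG : S_MOLG) (hMOLD : S_MOLD) (hENER : S_ENER)
    (hFREG : S_FREG) : S_FPOS := by
  intro T b f u v hT hs hodd hfpos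
  obtain ⟨hu, hu0, ⟨C', hC'⟩, hcont⟩ := hFREG 2 T b f u v hT hs
  obtain ⟨B, hdual, hFF, hueq⟩ := dual_of_fsol hs
  set C : ℝ := |C'| with hCdef
  have hC : ∀ t x y, |u t x - u t y| ≤ C * ‖x - y‖ := fun t x y =>
    (hC' t x y).trans (mul_le_mul_of_nonneg_right (le_abs_self _) (norm_nonneg _))
  have hC0 : 0 ≤ C := abs_nonneg _
  -- zero on the walls
  have hwall : ∀ t (m : ℤ) (s : ℝ), u t ![(m : ℝ) / 2, s] = 0 := by
    intro t m s
    have h1 := hodd t ![(m : ℝ) / 2, s]
    have h2 := hu.per t ![-((m : ℝ) / 2), s] ![m, 0]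
    have h3 : (fun i => (![-((m : ℝ) / 2), s] : Fin 2 → ℝ) i + (((![m, 0] : Fin 2 → ℤ) i : ℤ) : ℝ)) =
        ![(m : ℝ) / 2, s] := by
      funext i
      fin_cases i
      · simp
        ring
      · simp
    rw [h3] at h2
    simp only [Matrix.cons_val_zero, Matrix.cons_val_one] at h1
    rw [← h2] at h1
    linarith
  have hbd : ∀ t x, |u t x| ≤ (C / 4) * |Real.sin (2 * Real.pi * x 0)| := by
    intro t x
    set m : ℤ := round (2 * x 0) with hm
    have h1 : |2 * x 0 - m| ≤ 1 / 2 := abs_sub_round _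
    have h2 : |x 0 - (m : ℝ) / 2| ≤ 1 / 4 := by
      have e1 : x 0 - (m : ℝ) / 2 = (2 * x 0 - m) / 2 := by ring
      rw [e1, abs_div, abs_of_pos (by norm_num : (0 : ℝ) < 2)]
      linarith
    have h3 : |u t x| ≤ C * |x 0 - (m : ℝ) / 2| := by
      have e1 := hC t x ![(m : ℝ) / 2, x 1]
      rw [hwall, sub_zero] at e1
      refine e1.trans (mul_le_mul_of_nonneg_left ?_ hC0)
      rw [pi_norm_le_iff_of_nonneg (abs_nonneg _)]
      intro i
      fin_cases i
      · simp
      · simp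
    have h4 : |Real.sin (2 * Real.pi * x 0)| = |Real.sin (2 * Real.pi * (x 0 - (m : ℝ) / 2))| := by
      have e1 : 2 * Real.pi * (x 0 - (m : ℝ) / 2) = 2 * Real.pi * x 0 - (m : ℝ) * Real.pi := by ring
      rw [e1, Real.sin_sub_int_mul_pi, abs_mul, abs_zpow, abs_neg, abs_one, one_zpow, one_mul]
    have h5 := Real.mul_abs_le_abs_sin (x := 2 * Real.pi * (x 0 - (m : ℝ) / 2)) (by
      rw [abs_mul, abs_of_pos (by positivity : 0 < 2 * Real.pi)]
      nlinarith [Real.pi_pos])
    have h6 : 2 / Real.pi * |2 * Real.pi * (x 0 - (m : ℝ) / 2)| = 4 * |x 0 - (m : ℝ) / 2| := by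
      rw [abs_mul, abs_of_pos (by positivity : 0 < 2 * Real.pi)]
      field_simp
      ring
    rw [h6, ← h4] at h5
    calc |u t x| ≤ C * |x 0 - (m : ℝ) / 2| := h3
      _ = (C / 4) * (4 * |x 0 - (m : ℝ) / 2|) := by ring
      _ ≤ (C / 4) * |Real.sin (2 * Real.pi * x 0)| :=
        mul_le_mul_of_nonneg_left h5 (by positivity)
  have hh : ∀ t x, 0 < Real.sin (2 * Real.pi * x 0) → 0 ≤ f (1 + T - t) x := by
    intro t x hsin
    set k : ℤ := ⌊x 0⌋ with hk
    have h1 : (k : ℝ) ≤ x 0 := Int.floor_le _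
    have h2 : x 0 < k + 1 := Int.lt_floor_add_one _
    have h3 := hs.dat.pf (1 + T - t) x ![-k, 0]
    rw [← h3]
    refine hfpos _ _ ?_ ?_
    · change 0 ≤ x 0 + (((-k : ℤ)) : ℝ)
      push_cast
      linarith
    · change x 0 + (((-k : ℤ)) : ℝ) ≤ 1 / 2
      push_cast
      by_contra hcon
      push Not at hcon
      have h4 : Real.sin (2 * Real.pi * x 0) = -Real.sin (2 * Real.pi * (x 0 - k) - Real.pi) := by
        rw [Real.sin_sub_pi, neg_neg]
        have e1 : 2 * Real.pi * x 0 = 2 * Real.pi * (x 0 - k) + (k : ℝ) * (2 * Real.pi) := by ring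
        rw [e1, Real.sin_add_int_mul_two_pi]
      have h5 : 0 ≤ Real.sin (2 * Real.pi * (x 0 - k) - Real.pi) := by
        apply Real.sin_nonneg_of_nonneg_of_le_pi
        · nlinarith [Real.pi_pos]
        · nlinarith [Real.pi_pos]
      linarith
  have hst := fun δ hδ => strip hWEQ hKB hMOLG hMOLD hENER (by linarith : (1 : ℝ) < 1 + T) hdual
    (C / 4) (by positivity) (by
      intro t x
      have h1 := hueq (1 + T - t) x
      rw [sub_sub_cancel] at h1
      rw [← h1]
      exact hbd _ _) (fun t x hsin => hh t x hsin) δ hδ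
  -- everywhere
  intro t x htT hx0 hx1
  by_contra hneg
  push Not at hneg
  rcases hx0.eq_or_lt with hx0' | hx0'
  · have h1 := hbd t x
    rw [← hx0', mul_zero, Real.sin_zero, abs_zero, mul_zero] at h1
    have := neg_abs_le (u t x)
    linarith
  rcases hx1.eq_or_lt with hx1' | hx1'
  · have h1 := hbd t x
    have e1 : 2 * Real.pi * x 0 = Real.pi := by rw [hx1']; ring
    rw [e1, Real.sin_pi, abs_zero, mul_zero] at h1
    have := neg_abs_le (u t x)
    linarith
  set c : ℝ := -(u t x) with hc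
  have hc0 : 0 < c := by linarith
  -- an open set of bad points
  have hev1 : ∀ᶠ s in 𝓝 t, u s x < -(c / 2) :=
    (hcont x).continuousAt.eventually (gt_mem_nhds (by rw [hc]; linarith))
  have hev2 : ∀ᶠ s in 𝓝 t, s < 1 + T := gt_mem_nhds (by linarith)
  have hev3 : ∀ᶠ y in 𝓝 x, C * ‖x - y‖ < c / 4 := by
    have h1 : Continuous fun y : Fin 2 → ℝ => C * ‖x - y‖ := by fun_prop
    refine h1.continuousAt.eventually (gt_mem_nhds ?_)
    simp
    linarith
  have hev4 : ∀ᶠ y : Fin 2 → ℝ in 𝓝 x, 0 < Real.sin (2 * Real.pi * y 0) := by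
    have h1 : Continuous fun y : Fin 2 → ℝ => Real.sin (2 * Real.pi * y 0) := by fun_prop
    refine h1.continuousAt.eventually (lt_mem_nhds ?_)
    apply Real.sin_pos_of_pos_of_lt_pi
    · have := Real.pi_pos
      positivity
    · nlinarith [Real.pi_pos]
  obtain ⟨r, hr, hr'⟩ := Metric.eventually_nhds_iff.1 (hev1.and hev2)
  obtain ⟨r2, hr2, hr2'⟩ := Metric.eventually_nhds_iff.1 (hev3.and hev4)
  have hae := hst (c / 8) (by positivity)
  set O : Set (ℝ × (Fin 2 → ℝ)) := Metric.ball (1 + T - t) r ×ˢ Metric.ball x r2 with hO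
  have hOo : IsOpen O := Metric.isOpen_ball.prod Metric.isOpen_ball
  have hOn : O.Nonempty := ⟨(1 + T - t, x), ⟨Metric.mem_ball_self hr, Metric.mem_ball_self hr2⟩⟩
  have hOp : 0 < volume O := hOo.measure_pos volume hOn
  have hcontra : ∀ᵐ z : ℝ × (Fin 2 → ℝ), z ∉ O := by
    filter_upwards [hae] with z hz hzO
    have h1 : dist (1 + T - z.1) t < r := by
      have h2 : dist z.1 (1 + T - t) < r := hzO.1
      rw [Real.dist_eq] at h2 ⊢
      have e1 : 1 + T - z.1 - t = -(z.1 - (1 + T - t)) := by ring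
      rw [e1, abs_neg]
      exact h2
    obtain ⟨h3, h4⟩ := hr' h1
    obtain ⟨h5, h6⟩ := hr2' (show dist z.2 x < r2 from hzO.2)
    have h7 := hz (by linarith) h6
    have h8 := hueq (1 + T - z.1) z.2
    rw [sub_sub_cancel] at h8
    rw [← h8] at h7
    have h9 := (abs_le.1 (hC (1 + T - z.1) x z.2)).1
    linarith
  have h0 : volume O = 0 := by
    have := measure_eq_zero_iff_ae_notMem.2 hcontra
    exact this
  exact absurd h0 hOp.ne'

end Pool.Agent.Helper19.ND.FPOS
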