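import Pool.Agent.Helper19.ND.MAX
import Pool.Agent.Helper28.ND.Spec2

/-!
# ND2, part FPOS: positivity in the strip, the main estimate
-/

set_option autoImplicit false

namespace Pool.Agent.Helper19.ND.FPOS

open Pool.Agent.Helper28.ND Pool.Agent.Helper19.ND Pool.Agent.Helper19.ND.MAX MeasureTheory Set
  Filter Topology

theorem mol_bd {d : ℕ} (n : ℕ) (D : ℝ → (Fin d → ℝ) → ℝ) (t : ℝ) (x : Fin d → ℝ) (B : ℝ)
    (h : ∀ w : ℝ × (Fin d → ℝ), ‖w‖ < 1 / (4 * ((n : ℝ) + 1)) → |D (t - w.1) (x - w.2)| ≤ B) :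
    |mol n D t x| ≤ B := by
  have h1 : ‖mol n D t x‖ ≤ ∫ w : ℝ × (Fin d → ℝ), (bmp d n).normed volume w * B := by
    refine norm_integral_le_of_norm_le ((bmp d n).integrable_normed.mul_const B)
      (Eventually.of_forall fun w => ?_)
    rw [norm_mul, Real.norm_eq_abs, abs_of_nonneg ((bmp d n).nonneg_normed w), Real.norm_eq_abs]
    by_cases hw : ‖w‖ < 1 / (4 * ((n : ℝ) + 1))
    · exact mul_le_mul_of_nonneg_left (h w hw) ((bmp d n).nonneg_normed w)
    · have h2 : w ∉ Function.support ((bmp d n).normed volume) := by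
        rw [ContDiffBump.support_normed_eq, Metric.mem_ball, dist_zero_right]
        exact hw
      rw [Function.notMem_support.1 h2, zero_mul, zero_mul]
  rw [integral_mul_const, ContDiffBump.integral_normed, one_mul] at h1
  exact h1

/-- the cutoff -/
noncomputable def eta (σ : ℝ) (x : Fin 2 → ℝ) : ℝ :=
  Real.smoothTransition (Real.sin (2 * Real.pi * x 0) / σ)

theorem eta_smooth (σ : ℝ) : ContDiff ℝ (⊤ : ℕ∞) (eta σ) := by
  unfold eta
  refine Real.smoothTransition.contDiff.comp ?_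
  refine ContDiff.div_const (Real.contDiff_sin.comp ?_) σ
  exact contDiff_const.mul (contDiff_apply ℝ ℝ 0)

theorem eta_per (σ : ℝ) : Per (eta σ) := by
  intro x k
  unfold eta
  have h1 : 2 * Real.pi * (x 0 + (k 0 : ℝ)) = 2 * Real.pi * x 0 + (k 0 : ℝ) * (2 * Real.pi) := by
    ring
  simp only
  rw [h1, Real.sin_add_int_mul_two_pi]

theorem strip (hWEQ : S_WEQ) (hKB : S_KB) (hMOLG : S_MOLG) (hMOLD : S_MOLD) (hENER : S_ENER)
    {S K H : ℝ} {c : ℝ → (Fin 2 → ℝ) → (Fin 2 → ℝ)} {h : ℝ → (Fin 2 → ℝ) → ℝ}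
    {v : ℝ → (Fin 2 → ℝ) → (Fin 2 → ℝ)} (hS : 1 < S) (hdual : Dual 2 S K H c h v)
    (C1 : ℝ) (hC1 : 0 ≤ C1)
    (hφs : ∀ t x, |Phi S (FF c h v) t x| ≤ C1 * |Real.sin (2 * Real.pi * x 0)|)
    (hh : ∀ t x, 0 < Real.sin (2 * Real.pi * x 0) → 0 ≤ h t x) (δ : ℝ) (hδ : 0 < δ) :
    ∀ᵐ z : ℝ × (Fin 2 → ℝ), 0 < z.1 → 0 < Real.sin (2 * Real.pi * z.2 0) →
      -δ ≤ Phi S (FF c h v) z.1 z.2 := by
  have hS0 : 0 < S := by linarith
  have hH0 : 0 ≤ H := le_trans (abs_nonneg _) (hdual.dat.bh 0 0)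
  have hsrc : Src S (FF c h v) := PIC.ff_src hdual.dat ⟨hdual.measv, hdual.perv, hdual.bv⟩
  set F := FF c h v with hFdef
  have hF : BMP F := ⟨hsrc.meas, hsrc.per, hsrc.bdd⟩
  obtain ⟨hφ, hV, hz, _⟩ := hKB 2 S F hS0 hsrc
  set φ := Phi S F with hφdef
  set V : Fin 2 → ℝ → (Fin 2 → ℝ) → ℝ := fun i => Vel S F i with hVdef
  obtain ⟨mφs, mφb, mφc, mφz⟩ := hMOLG 2 φ hφ
  obtain ⟨mFs, mFb, mFc, _⟩ := hMOLG 2 F hF
  have mV := fun i => hMOLG 2 (V i) (hV i)
  obtain ⟨Bφ, hBφ⟩ := hφ.bdd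
  obtain ⟨BF, hBF⟩ := hF.bdd
  choose BV hBV using fun i => (hV i).bdd
  have hBφ0 : 0 ≤ Bφ := le_trans (abs_nonneg _) (hBφ 0 0)
  have hBF0 : 0 ≤ BF := le_trans (abs_nonneg _) (hBF 0 0)
  have hBV0 : ∀ i, 0 ≤ BV i := fun i => le_trans (abs_nonneg _) (hBV i 0 0)
  have bφ := mφb Bφ (Eventually.of_forall fun z _ => hBφ _ _)
  have bF := mFb BF (Eventually.of_forall fun z _ => hBF _ _)
  have bV := fun i => (mV i).2.1 (BV i) (Eventually.of_forall fun z _ => hBV i _ _)
  have dφ := (hMOLD 2 φ F hφ hF).1 (fun f hf => (hWEQ 2 S F hS0 hsrc f hf).1)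
  have dV := fun i => (hMOLD 2 φ (V i) hφ (hV i)).2 i (fun f hf => (hWEQ 2 S F hS0 hsrc f hf).2 i)
  set T1 : ℝ := S + 1 with hT1
  -- the cutoff
  set σ : ℝ := δ / (2 * (C1 + 1)) with hσdef
  have hσ : 0 < σ := by positivity
  have hC1σ : C1 * σ ≤ δ / 2 := by
    rw [hσdef]
    have e1 : C1 * (δ / (2 * (C1 + 1))) = (C1 / (C1 + 1)) * (δ / 2) := by
      field_simp
    rw [e1]
    have e2 : C1 / (C1 + 1) ≤ 1 := by
      rw [div_le_one (by positivity)]
      linarith
    calc C1 / (C1 + 1) * (δ / 2) ≤ 1 * (δ / 2) := mul_le_mul_of_nonneg_right e2 (by positivity)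
      _ = δ / 2 := one_mul _
  have hη0 : ∀ x, 0 ≤ eta σ x := fun x => Real.smoothTransition.nonneg _
  have hη1 : ∀ x, eta σ x ≤ 1 := fun x => Real.smoothTransition.le_one _
  have hηz : ∀ x : Fin 2 → ℝ, Real.sin (2 * Real.pi * x 0) ≤ 0 → eta σ x = 0 := fun x hx =>
    Real.smoothTransition.zero_of_nonpos (div_nonpos_of_nonpos_of_nonneg hx hσ.le)
  have hηo : ∀ x : Fin 2 → ℝ, σ ≤ Real.sin (2 * Real.pi * x 0) → eta σ x = 1 := fun x hx =>
    Real.smoothTransition.one_of_one_le ((one_le_div hσ).2 hx)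
  let P : ℕ → ℝ → (Fin 2 → ℝ) → ℝ := fun n t x => -(eta σ x * mol n φ t x)
  have hPs : ∀ n, SmoothPer (P n) := by
    intro n
    refine ⟨?_, ?_⟩
    · have e1 : U (P n) = fun z : ℝ × (Fin 2 → ℝ) => -(eta σ z.2 * U (mol n φ) z) := rfl
      rw [e1]
      exact (((eta_smooth σ).comp contDiff_snd).mul (mφs n).smooth).neg
    · intro t x k
      change -(eta σ (fun i => x i + (k i : ℝ)) * mol n φ t (fun i => x i + (k i : ℝ))) =
        -(eta σ x * mol n φ t x)
      rw [eta_per σ x k, (mφs n).per t x k]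
  -- the mollification is small near the walls
  have hms : ∀ (n : ℕ) t x, |mol n φ t x| ≤
      C1 * (|Real.sin (2 * Real.pi * x 0)| + 2 * Real.pi * (1 / (4 * ((n : ℝ) + 1)))) := by
    intro n t x
    refine mol_bd n φ t x _ fun w hw => ?_
    refine (hφs _ _).trans (mul_le_mul_of_nonneg_left ?_ hC1)
    have e1 := Real.abs_sin_sub_sin_le (2 * Real.pi * (x - w.2) 0) (2 * Real.pi * x 0)
    have e2 : |w.2 0| ≤ ‖w‖ := by
      have a1 := norm_le_pi_norm w.2 0
      have a2 := norm_snd_le w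
      rw [Real.norm_eq_abs] at a1
      exact a1.trans a2
    have e3 : |2 * Real.pi * (x - w.2) 0 - 2 * Real.pi * x 0| = 2 * Real.pi * |w.2 0| := by
      have : 2 * Real.pi * (x - w.2) 0 - 2 * Real.pi * x 0 = -(2 * Real.pi * w.2 0) := by
        rw [Pi.sub_apply]
        ring
      rw [this, abs_neg, abs_mul, abs_of_nonneg (by positivity : (0 : ℝ) ≤ 2 * Real.pi)]
    have e4 : |Real.sin (2 * Real.pi * (x - w.2) 0)| ≤ |Real.sin (2 * Real.pi * x 0)| +
        |Real.sin (2 * Real.pi * (x - w.2) 0) - Real.sin (2 * Real.pi * x 0)| := by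
      have := abs_add_le (Real.sin (2 * Real.pi * x 0))
        (Real.sin (2 * Real.pi * (x - w.2) 0) - Real.sin (2 * Real.pi * x 0))
      rwa [add_sub_cancel] at this
    have e5 : 2 * Real.pi * |w.2 0| ≤ 2 * Real.pi * (1 / (4 * ((n : ℝ) + 1))) :=
      mul_le_mul_of_nonneg_left (e2.trans hw.le) (by positivity)
    linarith
  -- measurability
  have msφ : ∀ n, Measurable (U (mol n φ)) := fun n => (mφs n).smooth.continuous.measurable
  have msP : ∀ n, Measurable (U (P n)) := fun n => (hPs n).smooth.continuous.measurable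
  have msF : ∀ n, Measurable (U (mol n F)) := fun n => (mFs n).smooth.continuous.measurable
  have msV : ∀ i n, Measurable (U (mol n (V i))) :=
    fun i n => ((mV i).1 n).smooth.continuous.measurable
  let W : ℕ → ℝ × (Fin 2 → ℝ) → ℝ := fun n z => U (P n) z - δ
  let J : ℕ → ℝ × (Fin 2 → ℝ) → ℝ := fun n z =>
    -(3 * (max (W n z) 0) ^ 2 * U (mol n F) z) -
      6 * (max (W n z) 0) * ∑ i, (U (mol n (V i)) z) ^ 2
  let R : ℕ → ℝ × (Fin 2 → ℝ) → ℝ := fun n z =>
    U (mol n F) z - ((∑ i, (U c z) i * U (mol n (V i)) z) + U h z)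
  have mW : ∀ n, Measurable (W n) := fun n => (msP n).sub measurable_const
  have mG : ∀ n, Measurable fun z => gg (W n z) := fun n => ((mW n).max measurable_const).pow_const 3
  have mJ : ∀ n, Measurable (J n) := by
    intro n
    refine Measurable.sub (Measurable.neg ?_) ?_
    · exact ((((mW n).max measurable_const).pow_const 2).const_mul 3).mul (msF n)
    · exact (((mW n).max measurable_const).const_mul 6).mul
        (Finset.measurable_fun_sum _ fun i _ => (msV i n).pow_const 2)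
  have mR : ∀ n, Measurable (R n) := by
    intro n
    refine (msF n).sub (Measurable.add (Finset.measurable_fun_sum _ fun i _ => ?_) hdual.dat.meash)
    exact ((measurable_pi_apply i).comp hdual.dat.measc).mul (msV i n)
  have mRa : ∀ n, Measurable fun z => |R n z| := fun n => (mR n).abs
  -- bounds
  have hwb : ∀ (n : ℕ) t x, 1 / (4 * ((n : ℝ) + 1)) < t →
      0 ≤ max (W n (t, x)) 0 ∧ max (W n (t, x)) 0 ≤ Bφ := by
    intro n t x h1
    refine ⟨le_max_right _ _, max_le ?_ hBφ0⟩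
    have h3 := bφ n t x h1
    change -(eta σ x * mol n φ t x) - δ ≤ Bφ
    have h4 : -(eta σ x * mol n φ t x) ≤ |eta σ x * mol n φ t x| := neg_le_abs _
    rw [abs_mul, abs_of_nonneg (hη0 x)] at h4
    have h5 : eta σ x * |mol n φ t x| ≤ 1 * Bφ :=
      mul_le_mul (hη1 x) h3 (abs_nonneg _) zero_le_one
    linarith
  have hgb : ∀ (n : ℕ) t x, 1 / (4 * ((n : ℝ) + 1)) < t → |gg (W n (t, x))| ≤ Bφ ^ 3 := by
    intro n t x h1
    obtain ⟨a1, a2⟩ := hwb n t x h1
    unfold gg
    rw [abs_of_nonneg (by positivity)]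
    exact pow_le_pow_left₀ a1 a2 3
  set CR : ℝ := BF + (∑ i, |K| * BV i) + H with hCR
  have hRb : ∀ (n : ℕ) t x, 1 / (4 * ((n : ℝ) + 1)) < t → |R n (t, x)| ≤ CR := by
    intro n t x h1
    change |mol n F t x - ((∑ i, c t x i * mol n (V i) t x) + h t x)| ≤ CR
    refine (abs_sub _ _).trans ?_
    have e1 := bF n t x h1
    have e2 : |(∑ i, c t x i * mol n (V i) t x) + h t x| ≤ (∑ i, |K| * BV i) + H := by
      refine (abs_add_le _ _).trans (add_le_add ?_ (hdual.dat.bh t x))
      refine (Finset.abs_sum_le_sum_abs _ _).trans (Finset.sum_le_sum fun i _ => ?_)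
      rw [abs_mul]
      exact mul_le_mul ((hdual.dat.bc t x i).trans (le_abs_self K)) (bV i n t x h1) (abs_nonneg _)
        (abs_nonneg _)
    linarith
  set CJ : ℝ := 3 * Bφ ^ 2 * BF + 6 * Bφ * ∑ i, (BV i) ^ 2 with hCJ
  have hJb : ∀ (n : ℕ) t x, 1 / (4 * ((n : ℝ) + 1)) < t → |J n (t, x)| ≤ CJ := by
    intro n t x h1
    obtain ⟨a1, a2⟩ := hwb n t x h1
    set w := max (W n (t, x)) 0 with hw
    change |-(3 * w ^ 2 * mol n F t x) - 6 * w * ∑ i, (mol n (V i) t x) ^ 2| ≤ CJ
    refine (abs_sub _ _).trans (add_le_add ?_ ?_)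
    · rw [abs_neg, abs_mul, abs_of_nonneg (by positivity : (0 : ℝ) ≤ 3 * w ^ 2)]
      have e2 : 3 * w ^ 2 ≤ 3 * Bφ ^ 2 := by
        have := pow_le_pow_left₀ a1 a2 2
        linarith
      exact mul_le_mul e2 (bF n t x h1) (abs_nonneg _) (by positivity)
    · have e0 : 0 ≤ ∑ i, (mol n (V i) t x) ^ 2 := Finset.sum_nonneg fun i _ => sq_nonneg _
      rw [abs_of_nonneg (by positivity)]
      have e1 : ∑ i, (mol n (V i) t x) ^ 2 ≤ ∑ i, (BV i) ^ 2 := by
        refine Finset.sum_le_sum fun i _ => ?_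
        rw [← sq_abs]
        exact pow_le_pow_left₀ (abs_nonneg _) (bV i n t x h1) 2
      exact mul_le_mul (by linarith) e1 e0 (by positivity)
  -- where W is positive
  have hpos : ∀ (n : ℕ) t x, 1 / (4 * ((n : ℝ) + 1)) < t →
      C1 * (2 * Real.pi * (1 / (4 * ((n : ℝ) + 1)))) ≤ δ / 2 → 0 < W n (t, x) →
      σ < Real.sin (2 * Real.pi * x 0) := by
    intro n t x h1 hn h2
    by_contra hcon
    push Not at hcon
    have h3 : 0 < -(eta σ x * mol n φ t x) - δ := h2
    by_cases hs : Real.sin (2 * Real.pi * x 0) ≤ 0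
    · rw [hηz x hs] at h3
      simp at h3
      linarith
    · push Not at hs
      have h4 := hms n t x
      rw [abs_of_pos hs] at h4
      have h5 : -(eta σ x * mol n φ t x) ≤ |eta σ x * mol n φ t x| := neg_le_abs _
      rw [abs_mul, abs_of_nonneg (hη0 x)] at h5
      have h6 : eta σ x * |mol n φ t x| ≤ 1 * |mol n φ t x| :=
        mul_le_mul_of_nonneg_right (hη1 x) (abs_nonneg _)
      have h7 : C1 * Real.sin (2 * Real.pi * x 0) ≤ C1 * σ := mul_le_mul_of_nonneg_left hcon hC1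
      rw [mul_add] at h4
      linarith
  set A : ℝ := (2 : ℕ) * (3 / 8 * K ^ 2) with hA
  have hA0 : 0 ≤ A := by positivity
  set G1 : ℝ := 3 * Bφ ^ 2 with hG1
  have hG10 : 0 ≤ G1 := by positivity
  have hpt : ∀ (n : ℕ) t x, 1 / (4 * ((n : ℝ) + 1)) < t →
      C1 * (2 * Real.pi * (1 / (4 * ((n : ℝ) + 1)))) ≤ δ / 2 →
      J n (t, x) ≤ A * gg (W n (t, x)) + G1 * |R n (t, x)| := by
    intro n t x h1 hn
    obtain ⟨a1, a2⟩ := hwb n t x h1
    by_cases hW : 0 < W n (t, x)
    · have hsin := hpos n t x h1 hn hW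
      set w := max (W n (t, x)) 0 with hw
      have e1 : mol n F t x = R n (t, x) + (∑ i, c t x i * mol n (V i) t x) + h t x := by
        change _ = (mol n F t x - ((∑ i, c t x i * mol n (V i) t x) + h t x)) + _ + _
        ring
      have e2 : 0 ≤ h t x := hh t x (hσ.trans hsin)
      have e3 : 3 * w ^ 2 * (∑ i, (-c t x i) * mol n (V i) t x) ≤
          6 * w * (∑ i, (mol n (V i) t x) ^ 2) + A * w ^ 3 := by
        have e4 : 6 * w * (∑ i, (mol n (V i) t x) ^ 2) + A * w ^ 3 =
            ∑ i : Fin 2, (6 * w * (mol n (V i) t x) ^ 2 + 3 / 8 * K ^ 2 * w ^ 3) := by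
          rw [Finset.sum_add_distrib, Finset.mul_sum, Finset.sum_const, Finset.card_univ,
            Fintype.card_fin, nsmul_eq_mul, hA]
          ring
        rw [e4, Finset.mul_sum]
        refine Finset.sum_le_sum fun i _ => pw w _ _ K a1 ?_
        rw [abs_neg]
        exact hdual.dat.bc t x i
      have e3' : (∑ i, (-c t x i) * mol n (V i) t x) = -∑ i, c t x i * mol n (V i) t x := by
        rw [← Finset.sum_neg_distrib]
        exact Finset.sum_congr rfl fun i _ => by ring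
      rw [e3'] at e3
      have e5 : -(3 * w ^ 2 * R n (t, x)) ≤ G1 * |R n (t, x)| := by
        have e6 : 3 * w ^ 2 ≤ G1 := by
          have := pow_le_pow_left₀ a1 a2 2
          rw [hG1]
          linarith
        have e8 : -(R n (t, x)) ≤ |R n (t, x)| := neg_le_abs _
        calc -(3 * w ^ 2 * R n (t, x)) = 3 * w ^ 2 * -(R n (t, x)) := by ring
          _ ≤ 3 * w ^ 2 * |R n (t, x)| := mul_le_mul_of_nonneg_left e8 (by positivity)
          _ ≤ G1 * |R n (t, x)| := mul_le_mul_of_nonneg_right e6 (abs_nonneg _)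
      have e7 : 0 ≤ 3 * w ^ 2 * h t x := mul_nonneg (by positivity) e2
      change -(3 * w ^ 2 * mol n F t x) - 6 * w * (∑ i, (mol n (V i) t x) ^ 2) ≤
        A * w ^ 3 + G1 * |R n (t, x)|
      rw [e1]
      nlinarith
    · push Not at hW
      have e1 : max (W n (t, x)) 0 = 0 := max_eq_right hW
      change -(3 * (max (W n (t, x)) 0) ^ 2 * mol n F t x) -
        6 * (max (W n (t, x)) 0) * (∑ i, (mol n (V i) t x) ^ 2) ≤
        A * (max (W n (t, x)) 0) ^ 3 + G1 * |R n (t, x)|
      rw [e1]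
      have : 0 ≤ G1 * |R n (t, x)| := mul_nonneg hG10 (abs_nonneg _)
      simp
      linarith
  let Y : ℕ → ℝ → ℝ := fun n t => ∫ x in Q 2, gg (W n (t, x))
  -- the energy identity
  have hen : ∀ (n : ℕ) τ, C1 * (2 * Real.pi * (1 / (4 * ((n : ℝ) + 1)))) ≤ δ / 2 →
      1 / (4 * ((n : ℝ) + 1)) ≤ τ → τ ≤ T1 →
      Y n τ = ∫ t in Ioc τ T1, ∫ x in Q 2, J n (t, x) := by
    intro n τ hn h1 h2
    have h3 := hENER 2 (P n) gg (fun _ => δ) (hPs n) gg_smooth contDiff_const τ T1 h2
    have hn4 : 1 / (4 * ((n : ℝ) + 1)) ≤ 1 := by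
      rw [div_le_one (by positivity)]
      have : (0 : ℝ) ≤ n := n.cast_nonneg
      linarith
    have h4 : ∫ x in Q 2, gg (P n T1 x - δ) = 0 := by
      have h5 : ∀ x, gg (P n T1 x - δ) = 0 := by
        intro x
        change gg (-(eta σ x * mol n φ T1 x) - δ) = 0
        rw [mφz S (fun t ht x => (hz t ht x).1) n T1 (by rw [hT1]; linarith) x]
        unfold gg
        rw [max_eq_right (by simp; linarith)]
        simp
      simp [h5]
    rw [h4, zero_sub] at h3
    have h6 : Y n τ = -∫ t in Ioc τ T1, ∫ x in Q 2,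
        (deriv gg (P n t x - δ) * (dt (P n) t x + lap (P n t) x - deriv (fun _ : ℝ => δ) t) +
          deriv (deriv gg) (P n t x - δ) * ∑ i, (pd i (P n t) x) ^ 2) := by
      rw [← h3, neg_neg]
      rfl
    rw [h6, ← integral_neg]
    refine setIntegral_congr_fun measurableSet_Ioc fun t ht => ?_
    have ht' : 1 / (4 * ((n : ℝ) + 1)) < t := lt_of_le_of_lt h1 ht.1
    change -∫ x in Q 2, _ = ∫ x in Q 2, J n (t, x)
    rw [← integral_neg]
    refine integral_congr_ae (Eventually.of_forall fun x => ?_)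
    change -(deriv gg (P n t x - δ) * (dt (P n) t x + lap (P n t) x - deriv (fun _ : ℝ => δ) t) +
      deriv (deriv gg) (P n t x - δ) * ∑ i, (pd i (P n t) x) ^ 2) =
      -(3 * (max (P n t x - δ) 0) ^ 2 * mol n F t x) -
      6 * (max (P n t x - δ) 0) * ∑ i, (mol n (V i) t x) ^ 2
    rw [gg_deriv2, gg_deriv, deriv_const]
    by_cases hW : 0 < W n (t, x)
    · have hsin := hpos n t x ht' hn hW
      have hopen : ∀ᶠ y : Fin 2 → ℝ in 𝓝 x, σ < Real.sin (2 * Real.pi * y 0) := by
        have hc : Continuous fun y : Fin 2 → ℝ => Real.sin (2 * Real.pi * y 0) := by fun_prop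
        exact hc.continuousAt.eventually (lt_mem_nhds hsin)
      have hev : ∀ᶠ y : Fin 2 → ℝ in 𝓝 x, P n t =ᶠ[𝓝 y] fun y => -(mol n φ t y) := by
        filter_upwards [eventually_eventually_nhds.2 hopen] with y hy
        filter_upwards [hy] with y' hy'
        change -(eta σ y' * mol n φ t y') = -(mol n φ t y')
        rw [hηo y' hy'.le, one_mul]
      have hpd1 : ∀ i, ∀ᶠ y : Fin 2 → ℝ in 𝓝 x, pd i (P n t) y = -(pd i (mol n φ t) y) := by
        intro i
        filter_upwards [hev] with y hy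
        unfold pd
        rw [hy.fderiv_eq, fderiv_fun_neg]
        rfl
      have hpd2 : ∀ i, pd i (P n t) x = -(pd i (mol n φ t) x) := fun i => (hpd1 i).self_of_nhds
      have hlap : lap (P n t) x = -(lap (mol n φ t) x) := by
        unfold lap
        rw [← Finset.sum_neg_distrib]
        refine Finset.sum_congr rfl fun i _ => ?_
        have e1 : pd i (P n t) =ᶠ[𝓝 x] fun y => -(pd i (mol n φ t) y) := hpd1 i
        change fderiv ℝ (pd i (P n t)) x (Pi.single i 1) = -(fderiv ℝ (pd i (mol n φ t)) x (Pi.single i 1))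
        rw [e1.fderiv_eq, fderiv_fun_neg]
        rfl
      have hdt : dt (P n) t x = -(dt (mol n φ) t x) := by
        change deriv (fun s => -(eta σ x * mol n φ s x)) t = -(deriv (fun s => mol n φ s x) t)
        rw [hηo x hsin.le]
        simp only [one_mul]
        exact deriv.fun_neg
      rw [hdt, hlap]
      simp_rw [hpd2]
      have h8 := dφ n t x ht'
      have h7 : ∑ i, (-(pd i (mol n φ t) x)) ^ 2 = ∑ i, (mol n (V i) t x) ^ 2 :=
        Finset.sum_congr rfl fun i _ => by rw [dV i n t x ht', neg_sq]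
      rw [h7]
      have h9 : -dt (mol n φ) t x + -lap (mol n φ t) x - 0 = mol n F t x := by linarith
      rw [h9]
      ring
    · push Not at hW
      have e1 : max (P n t x - δ) 0 = 0 := max_eq_right hW
      simp only [e1]
      ring
  -- the limit function
  let Wl : ℝ × (Fin 2 → ℝ) → ℝ := fun z => -(eta σ z.2 * U φ z) - δ
  have hlimW : ∀ᵐ z : ℝ × (Fin 2 → ℝ), Tendsto (fun n => gg (W n z)) atTop (𝓝 (gg (Wl z))) := by
    filter_upwards [mφc] with z hz1
    have hc : Continuous gg := by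
      unfold gg
      fun_prop
    refine (hc.tendsto _).comp ?_
    exact ((hz1.const_mul (eta σ z.2)).neg).sub_const δ
  have hlimR : ∀ᵐ z : ℝ × (Fin 2 → ℝ), Tendsto (fun n => |R n z|) atTop (𝓝 0) := by
    have hall : ∀ᵐ z : ℝ × (Fin 2 → ℝ), ∀ i, Tendsto (fun n => U (mol n (V i)) z) atTop
        (𝓝 (U (V i) z)) := ae_all_iff.2 fun i => (mV i).2.2.1
    filter_upwards [hall, mFc] with z hz1 hz2
    have h1 : Tendsto (fun n => R n z) atTop (𝓝 (U F z - ((∑ i, (U c z) i * U (V i) z) + U h z))) := by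
      refine hz2.sub (Tendsto.add_const _ (tendsto_finsetSum _ fun i _ => ?_))
      exact (hz1 i).const_mul _
    have h2 : U F z - ((∑ i, (U c z) i * U (V i) z) + U h z) = 0 := by
      change F z.1 z.2 - ((∑ i, c z.1 z.2 i * Vel S F i z.1 z.2) + h z.1 z.2) = 0
      have h3 : F z.1 z.2 = (∑ i, c z.1 z.2 i * v z.1 z.2 i) + h z.1 z.2 := rfl
      rw [h3]
      have h4 : ∀ i, v z.1 z.2 i = Vel S F i z.1 z.2 := fun i => hdual.eq _ _ _
      simp_rw [h4]
      ring
    rw [h2] at h1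
    have := h1.abs
    rwa [abs_zero] at this
  -- the main step
  have key : ∀ τ0 : ℝ, 0 < τ0 → τ0 ≤ T1 →
      ∀ᵐ z : ℝ × (Fin 2 → ℝ), z ∈ Ioc τ0 T1 ×ˢ Q 2 → gg (Wl z) = 0 := by
    intro τ0 hτ0 hτ1
    set Pr : Set (ℝ × (Fin 2 → ℝ)) := Ioc τ0 T1 ×ˢ Q 2 with hPr
    have hPm : MeasurableSet Pr := measurableSet_Ioc.prod (meas_Q 2)
    have hPf : IsFiniteMeasure ((volume : Measure (ℝ × (Fin 2 → ℝ))).restrict Pr) := by
      refine ⟨?_⟩
      rw [Measure.restrict_apply_univ, Measure.volume_eq_prod, Measure.prod_prod, vol_Q, mul_one,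
        Real.volume_Ioc]
      exact ENNReal.ofReal_lt_top
    have hsm : Tendsto (fun n : ℕ => (1 / 4 : ℝ) * (1 / ((n : ℝ) + 1))) atTop (𝓝 (1 / 4 * 0)) :=
      tendsto_one_div_add_atTop_nhds_zero_nat.const_mul _
    rw [mul_zero] at hsm
    have hsm' : Tendsto (fun n : ℕ => (1 : ℝ) / (4 * ((n : ℝ) + 1))) atTop (𝓝 0) := by
      refine hsm.congr fun n => ?_
      field_simp
    have hev0 : ∀ᶠ n : ℕ in atTop, 1 / (4 * ((n : ℝ) + 1)) < τ0 :=
      hsm'.eventually (gt_mem_nhds hτ0)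
    have hev1 : ∀ᶠ n : ℕ in atTop, C1 * (2 * Real.pi * (1 / (4 * ((n : ℝ) + 1)))) ≤ δ / 2 := by
      have h1 := (hsm'.const_mul (2 * Real.pi)).const_mul C1
      rw [mul_zero, mul_zero] at h1
      exact (h1.eventually (gt_mem_nhds (half_pos hδ))).mono fun n hn => hn.le
    have hev := hev0.and hev1
    let δ' : ℕ → ℝ := fun n => G1 * ∫ z in Pr, |R n z|
    have hδ0 : ∀ n, 0 ≤ δ' n := fun n =>
      mul_nonneg hG10 (integral_nonneg fun z => abs_nonneg _)
    have hδlim : Tendsto δ' atTop (𝓝 0) := by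
      have h1 : Tendsto (fun n => ∫ z in Pr, |R n z|) atTop
          (𝓝 (∫ _z in Pr, (0 : ℝ))) := by
        refine tendsto_integral_filter_of_dominated_convergence (fun _ => CR) ?_ ?_
          (integrable_const _) ?_
        · exact Eventually.of_forall fun n => (mRa n).aestronglyMeasurable
        · filter_upwards [hev0] with n hn
          refine (ae_restrict_iff' hPm).2 (Eventually.of_forall fun z hz1 => ?_)
          rw [Real.norm_eq_abs, abs_abs]
          exact hRb n z.1 z.2 (hn.trans hz1.1.1)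
        · exact ae_restrict_of_ae hlimR
      rw [integral_zero] at h1
      have h2 := h1.const_mul G1
      rwa [mul_zero] at h2
    have hYb : ∀ᶠ n : ℕ in atTop, ∫ z in Pr, gg (W n z) ≤
        (T1 - τ0) * (2 * δ' n * Real.exp (2 * (A + 1) * T1)) := by
      filter_upwards [hev] with n hn
      obtain ⟨hn, hnC⟩ := hn
      have hb1 := bm (fun z => gg (W n z)) (mG n) τ0 T1 (Bφ ^ 3)
        (fun t x h1 h2 => hgb n t x (hn.trans h1))
      have hYi : IntegrableOn (Y n) (Ioc τ0 T1) := hb1.2.1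
      have hgr := gron (Y n) τ0 T1 A (Bφ ^ 3) (δ' n) hA0 (by positivity) (hδ0 n) (by
          intro τ h1 h2
          have h3 := norm_integral_le_of_norm_le (μ := volume.restrict (Q 2))
            (integrable_const (Bφ ^ 3)) (f := fun x => gg (W n (τ, x)))
            (Eventually.of_forall fun x => hgb n τ x (lt_of_lt_of_le hn h1))
          refine (le_abs_self _).trans (h3.trans (le_of_eq ?_))
          simp) hYi (by
          intro τ h1 h2
          have hJ := bm (J n) (mJ n) τ T1 CJ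
            (fun t x h3 h4 => hJb n t x (hn.trans (lt_of_le_of_lt h1 h3)))
          have hG := bm (fun z => gg (W n z)) (mG n) τ T1 (Bφ ^ 3)
            (fun t x h3 h4 => hgb n t x (hn.trans (lt_of_le_of_lt h1 h3)))
          have hR := bm (fun z => |R n z|) (mRa n) τ0 T1 CR (fun t x h3 h4 => by
            rw [abs_abs]
            exact hRb n t x (hn.trans h3))
          have hsub : Ioc τ T1 ×ˢ Q 2 ⊆ Pr := Set.prod_mono (Ioc_subset_Ioc_left h1) Subset.rfl
          rw [hen n τ hnC (hn.le.trans h1) h2, hJ.2.2.2]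
          have e1 : ∫ z in Ioc τ T1 ×ˢ Q 2, J n z ≤
              ∫ z in Ioc τ T1 ×ˢ Q 2, (A * gg (W n z) + G1 * |R n z|) := by
            refine setIntegral_mono_on hJ.2.2.1
              ((hG.2.2.1.const_mul A).add ((hR.2.2.1.mono_set hsub).const_mul G1))
              (measurableSet_Ioc.prod (meas_Q 2)) fun z hz1 => ?_
            exact hpt n z.1 z.2 (hn.trans (lt_of_le_of_lt h1 hz1.1.1)) hnC
          have e2 : ∫ z in Ioc τ T1 ×ˢ Q 2, (A * gg (W n z) + G1 * |R n z|) =
              A * (∫ z in Ioc τ T1 ×ˢ Q 2, gg (W n z)) +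
                G1 * ∫ z in Ioc τ T1 ×ˢ Q 2, |R n z| := by
            rw [integral_add (hG.2.2.1.const_mul A) ((hR.2.2.1.mono_set hsub).const_mul G1),
              integral_const_mul, integral_const_mul]
          have e3 : ∫ z in Ioc τ T1 ×ˢ Q 2, |R n z| ≤ ∫ z in Pr, |R n z| :=
            setIntegral_mono_set hR.2.2.1 (Eventually.of_forall fun z => abs_nonneg _)
              (Eventually.of_forall hsub)
          have e4 : ∫ z in Ioc τ T1 ×ˢ Q 2, gg (W n z) = ∫ t in Ioc τ T1, Y n t :=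
            hG.2.2.2.symm
          rw [e2, e4] at e1
          refine e1.trans (add_le_add le_rfl (mul_le_mul_of_nonneg_left e3 hG10)))
      have e5 : ∫ z in Pr, gg (W n z) = ∫ t in Ioc τ0 T1, Y n t := hb1.2.2.2.symm
      rw [e5]
      have e6 : ∫ t in Ioc τ0 T1, Y n t ≤
          ∫ _t in Ioc τ0 T1, (2 * δ' n * Real.exp (2 * (A + 1) * T1)) := by
        refine setIntegral_mono_on hYi (integrableOn_const (by
            rw [Real.volume_Ioc]
            exact ENNReal.ofReal_ne_top)) measurableSet_Ioc fun t ht => ?_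
        refine (hgr t ht.1.le ht.2).trans ?_
        refine mul_le_mul_of_nonneg_left (Real.exp_le_exp.2 ?_) (mul_nonneg zero_le_two (hδ0 n))
        refine mul_le_mul_of_nonneg_left ?_ (by positivity)
        linarith [ht.1]
      refine e6.trans (le_of_eq ?_)
      rw [setIntegral_const, measureReal_def, Real.volume_Ioc,
        ENNReal.toReal_ofReal (by linarith), smul_eq_mul]
    have hconv : Tendsto (fun n => ∫ z in Pr, gg (W n z)) atTop (𝓝 (∫ z in Pr, gg (Wl z))) := by
      refine tendsto_integral_filter_of_dominated_convergence (fun _ => Bφ ^ 3) ?_ ?_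
        (integrable_const _) ?_
      · exact Eventually.of_forall fun n => (mG n).aestronglyMeasurable
      · filter_upwards [hev0] with n hn
        refine (ae_restrict_iff' hPm).2 (Eventually.of_forall fun z hz1 => ?_)
        exact hgb n z.1 z.2 (hn.trans hz1.1.1)
      · exact ae_restrict_of_ae hlimW
    have hle : ∫ z in Pr, gg (Wl z) ≤ 0 := by
      have h1 : Tendsto (fun n => (T1 - τ0) * (2 * δ' n * Real.exp (2 * (A + 1) * T1))) atTop
          (𝓝 ((T1 - τ0) * (2 * 0 * Real.exp (2 * (A + 1) * T1)))) :=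
        ((hδlim.const_mul 2).mul_const _).const_mul _
      rw [mul_zero, zero_mul, mul_zero] at h1
      exact le_of_tendsto_of_tendsto hconv h1 hYb
    have hnn : ∀ z, 0 ≤ gg (Wl z) := fun z => by
      unfold gg
      positivity
    have hmWl : Measurable fun z => gg (Wl z) := by
      have e1 : Measurable fun z : ℝ × (Fin 2 → ℝ) => eta σ z.2 :=
        (eta_smooth σ).continuous.measurable.comp measurable_snd
      exact ((((e1.mul hφ.meas).neg).sub measurable_const).max measurable_const).pow_const 3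
    have hint : IntegrableOn (fun z => gg (Wl z)) Pr := by
      refine (bm (fun z => gg (Wl z)) hmWl τ0 T1 (Bφ ^ 3) (fun t x h1 h2 => ?_)).2.2.1
      rw [abs_of_nonneg (hnn _)]
      unfold gg
      refine pow_le_pow_left₀ (le_max_right _ _) (max_le ?_ hBφ0) 3
      have h3 := hBφ t x
      change -(eta σ x * φ t x) - δ ≤ Bφ
      have h4 : -(eta σ x * φ t x) ≤ |eta σ x * φ t x| := neg_le_abs _
      rw [abs_mul, abs_of_nonneg (hη0 x)] at h4
      have h5 : eta σ x * |φ t x| ≤ 1 * Bφ :=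
        mul_le_mul (hη1 x) h3 (abs_nonneg _) zero_le_one
      linarith
    have hzero : ∫ z in Pr, gg (Wl z) = 0 := le_antisymm hle (integral_nonneg hnn)
    have h5 := (integral_eq_zero_iff_of_nonneg (μ := volume.restrict Pr) hnn hint).1 hzero
    have h6 := (ae_restrict_iff' hPm).1 h5
    filter_upwards [h6] with z hz1 hz2
    exact hz1 hz2
  have hkey2 := ae_all_iff.2 fun m : ℕ => (by
    by_cases hm : 1 / ((m : ℝ) + 1) ≤ T1
    · exact key (1 / ((m : ℝ) + 1)) (by positivity) hm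
    · refine Eventually.of_forall fun z hz1 => ?_
      exfalso
      push Not at hm
      have h1 := hz1.1.1
      have h2 := hz1.1.2
      linarith : ∀ᵐ z : ℝ × (Fin 2 → ℝ), z ∈ Ioc (1 / ((m : ℝ) + 1)) T1 ×ˢ Q 2 → gg (Wl z) = 0)
  refine per_ae (fun z => 0 < z.1 → 0 < Real.sin (2 * Real.pi * z.2 0) → -δ ≤ φ z.1 z.2) ?_ ?_
  · intro t x k h1 h0 hs
    have e1 : Real.sin (2 * Real.pi * (x 0 + (k 0 : ℝ))) = Real.sin (2 * Real.pi * x 0) := by
      have : 2 * Real.pi * (x 0 + (k 0 : ℝ)) = 2 * Real.pi * x 0 + (k 0 : ℝ) * (2 * Real.pi) := by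
        ring
      rw [this, Real.sin_add_int_mul_two_pi]
    have h2 := h1 h0 (by
      change 0 < Real.sin (2 * Real.pi * (x 0 + (k 0 : ℝ)))
      rw [e1]
      exact hs)
    change -δ ≤ φ t (fun i => x i + (k i : ℝ)) at h2
    rw [hφ.per t x k] at h2
    exact h2
  · filter_upwards [hkey2] with z hz1 hzQ h0 hsin
    by_cases hT : T1 < z.1
    · rw [(hz z.1 (by rw [hT1] at hT; linarith) z.2).1]
      linarith
    · push Not at hT
      obtain ⟨m, hm⟩ := exists_nat_one_div_lt h0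
      have h1 := hz1 m ⟨⟨hm, hT⟩, hzQ⟩
      have h2 : Wl z ≤ 0 := by
        by_contra hcon
        push Not at hcon
        unfold gg at h1
        rw [max_eq_left hcon.le] at h1
        have := pow_pos hcon 3
        linarith
      have h3 : -(eta σ z.2 * φ z.1 z.2) - δ ≤ 0 := h2
      by_cases hs : σ ≤ Real.sin (2 * Real.pi * z.2 0)
      · rw [hηo z.2 hs, one_mul] at h3
        linarith
      · push Not at hs
        have h4 := hφs z.1 z.2
        rw [abs_of_pos hsin] at h4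
        have h5 : C1 * Real.sin (2 * Real.pi * z.2 0) ≤ C1 * σ := mul_le_mul_of_nonneg_left hs.le hC1
        have h6 := neg_abs_le (φ z.1 z.2)
        linarith

end Pool.Agent.Helper19.ND.FPOS
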