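import Pool.Agent.Helper19.ND.PIC

/-!
# ND, part GRAD: the gradient bound
-/

set_option autoImplicit false

namespace Pool.Agent.Helper19.ND.GRAD

open Pool.Agent.Helper28.ND Pool.Agent.Helper19.ND MeasureTheory Set Filter Topology

theorem st_deriv_bd : ∃ Cs : ℝ, 0 ≤ Cs ∧ ∀ x, |deriv Real.smoothTransition x| ≤ Cs := by
  have hc : Continuous (deriv Real.smoothTransition) :=
    (Real.smoothTransition.contDiff (n := 1)).continuous_deriv (by norm_num)
  obtain ⟨M, hM⟩ := (isCompact_Icc (a := (0 : ℝ)) (b := 1)).exists_bound_of_continuousOn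
    hc.continuousOn
  refine ⟨max M 0, le_max_right _ _, fun x => ?_⟩
  by_cases h0 : x < 0
  · have h1 : Real.smoothTransition =ᶠ[𝓝 x] fun _ => (0 : ℝ) := by
      filter_upwards [Iio_mem_nhds h0] with y hy
      exact Real.smoothTransition.zero_of_nonpos (le_of_lt hy)
    rw [h1.deriv_eq]
    simp
  by_cases h1 : 1 < x
  · have h2 : Real.smoothTransition =ᶠ[𝓝 x] fun _ => (1 : ℝ) := by
      filter_upwards [Ioi_mem_nhds h1] with y hy
      exact Real.smoothTransition.one_of_one_le (le_of_lt hy)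
    rw [h2.deriv_eq]
    simp
  · push Not at h0 h1
    exact (hM x ⟨h0, h1⟩).trans (le_max_left _ _)

/-- the cutoff -/
noncomputable def chi (a δ t : ℝ) : ℝ := 1 - Real.smoothTransition ((t - a) / δ)

theorem chi_smooth (a δ : ℝ) : ContDiff ℝ (⊤ : ℕ∞) (chi a δ) := by
  unfold chi
  refine contDiff_const.sub ?_
  exact Real.smoothTransition.contDiff.comp ((contDiff_id.sub contDiff_const).div_const _)

theorem chi_one {a δ t : ℝ} (hδ : 0 < δ) (ht : t ≤ a) : chi a δ t = 1 := by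
  unfold chi
  rw [Real.smoothTransition.zero_of_nonpos (div_nonpos_of_nonpos_of_nonneg (by linarith) hδ.le)]
  ring

theorem chi_zero {a δ t : ℝ} (hδ : 0 < δ) (ht : a + δ ≤ t) : chi a δ t = 0 := by
  unfold chi
  rw [Real.smoothTransition.one_of_one_le (by rw [le_div_iff₀ hδ]; linarith)]
  ring

theorem chi_abs (a δ t : ℝ) : |chi a δ t| ≤ 1 := by
  unfold chi
  have h1 := Real.smoothTransition.nonneg ((t - a) / δ)
  have h2 := Real.smoothTransition.le_one ((t - a) / δ)
  rw [abs_le]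
  constructor <;> linarith

theorem chi_deriv_one {a δ t : ℝ} (hδ : 0 < δ) (ht : t < a) : deriv (chi a δ) t = 0 := by
  have h1 : chi a δ =ᶠ[𝓝 t] fun _ => (1 : ℝ) := by
    filter_upwards [Iio_mem_nhds ht] with y hy
    exact chi_one hδ (le_of_lt hy)
  rw [h1.deriv_eq]
  simp

theorem chi_deriv_zero {a δ t : ℝ} (hδ : 0 < δ) (ht : a + δ < t) : deriv (chi a δ) t = 0 := by
  have h1 : chi a δ =ᶠ[𝓝 t] fun _ => (0 : ℝ) := by
    filter_upwards [Ioi_mem_nhds ht] with y hy
    exact chi_zero hδ (le_of_lt hy)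
  rw [h1.deriv_eq]
  simp

theorem chi_deriv_bd {Cs : ℝ} (hCs : ∀ x, |deriv Real.smoothTransition x| ≤ Cs) {a δ : ℝ}
    (hδ : 0 < δ) (t : ℝ) : |deriv (chi a δ) t| ≤ Cs / δ := by
  have h1 : HasDerivAt Real.smoothTransition (deriv Real.smoothTransition ((t - a) / δ))
      ((t - a) / δ) :=
    ((Real.smoothTransition.contDiff (n := 1)).differentiable (by norm_num) _).hasDerivAt
  have h2 : HasDerivAt (fun t : ℝ => (t - a) / δ) (1 / δ) t :=
    ((hasDerivAt_id t).sub_const a).div_const δ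
  have h3 : HasDerivAt (chi a δ) (-(deriv Real.smoothTransition ((t - a) / δ) * (1 / δ))) t := by
    have h4 := (h1.comp t h2).const_sub 1
    exact h4
  rw [h3.deriv, abs_neg, abs_mul, abs_of_pos (by positivity : (0 : ℝ) < 1 / δ), mul_one_div]
  gcongr
  exact hCs _

theorem step (hKB : S_KB) (hCUT : S_CUT) (hMAX : S_MAX) (d : ℕ) (S H : ℝ) (hS : 1 < S)
    (hH : 0 ≤ H) : ∃ C : ℝ, 0 ≤ C ∧ ∀ (K : ℝ) (c : ℝ → (Fin d → ℝ) → (Fin d → ℝ))
    (h : ℝ → (Fin d → ℝ) → ℝ) (v : ℝ → (Fin d → ℝ) → (Fin d → ℝ)), 1 ≤ K → Dual d S K H c h v →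
    ∀ B : ℝ, 0 ≤ B → (∀ᵐ z : ℝ × (Fin d → ℝ), 0 < z.1 → ∀ i, |v z.1 z.2 i| ≤ B) →
    ∀ᵐ z : ℝ × (Fin d → ℝ), 0 < z.1 → ∀ i, |v z.1 z.2 i| ≤ B / 2 + C * K := by
  obtain ⟨Cs, hCs0, hCs⟩ := st_deriv_bd
  have hS0 : 0 < S := by linarith
  refine ⟨H + 24 * d * Cs * H * (S + 1), by positivity, ?_⟩
  intro K c h v hK hdual B hB hvB
  rcases Nat.eq_zero_or_pos d with hd0 | hd0
  · subst hd0
    exact Eventually.of_forall fun z _ i => i.elim0
  have hd1 : (1 : ℝ) ≤ d := by exact_mod_cast hd0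
  have hdK : 1 ≤ (d : ℝ) * K := by nlinarith
  have hsrc : Src S (FF c h v) := PIC.ff_src hdual.dat ⟨hdual.measv, hdual.perv, hdual.bv⟩
  set F := FF c h v with hF
  set δ : ℝ := 1 / (48 * ((d : ℝ) * K) ^ 2) with hδdef
  have hδ : 0 < δ := by positivity
  have hs3 : Real.sqrt (3 * δ) = 1 / (4 * ((d : ℝ) * K)) := by
    rw [Real.sqrt_eq_iff_mul_self_eq (by positivity) (by positivity), hδdef]
    field_simp
    norm_num
  have hmax := hMAX d S K H c h v hS hdual
  -- the bound of the source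
  have hFb : ∀ᵐ z : ℝ × (Fin d → ℝ), 0 < z.1 → |F z.1 z.2| ≤ d * K * B + H := by
    filter_upwards [hvB] with z hz h0
    rw [hF]
    unfold FF
    refine (abs_add_le _ _).trans (add_le_add ?_ (hdual.dat.bh _ _))
    refine (Finset.abs_sum_le_sum_abs _ _).trans ?_
    have h2 : ∀ i ∈ (Finset.univ : Finset (Fin d)), |c z.1 z.2 i * v z.1 z.2 i| ≤ K * B := by
      intro i _
      rw [abs_mul]
      exact mul_le_mul (hdual.dat.bc _ _ i) (hz h0 i) (abs_nonneg _) (by linarith)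
    refine (Finset.sum_le_sum h2).trans ?_
    rw [Finset.sum_const, Finset.card_univ, Fintype.card_fin, nsmul_eq_mul]
    apply le_of_eq
    ring
  set B' : ℝ := d * K * B + H + (Cs / δ) * (H * (S + 1)) with hB'
  have hB'0 : 0 ≤ B' := by positivity
  have hcut : ∀ j : ℕ, ∀ᵐ z : ℝ × (Fin d → ℝ), 0 < z.1 → z.1 ≤ (j + 1) * δ → j * δ < z.1 →
      ∀ i, |v z.1 z.2 i| ≤ 2 * B' * Real.sqrt (3 * δ) := by
    intro j
    set a : ℝ := (j + 1) * δ with ha
    have ha0 : 0 < a := by positivity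
    have h1 := hCUT d S F (chi a δ) hS0 hsrc (chi_smooth a δ)
      ⟨max 1 (Cs / δ), fun t => ⟨(chi_abs a δ t).trans (le_max_left _ _),
        (chi_deriv_bd hCs hδ t).trans (le_max_right _ _)⟩⟩
      (fun t ht => chi_deriv_one hδ (by linarith))
    obtain ⟨hsrc', hae⟩ := h1
    obtain ⟨_, _, _, hvel⟩ := hKB d S _ hS0 hsrc'
    have hb : ∀ᵐ z : ℝ × (Fin d → ℝ),
        |U (fun t x => chi a δ t * F t x - deriv (chi a δ) t * Phi S F t x) z| ≤ B' := by
      filter_upwards [hFb, hmax] with z hz1 hz2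
      change |chi a δ z.1 * F z.1 z.2 - deriv (chi a δ) z.1 * Phi S F z.1 z.2| ≤ B'
      by_cases h0 : 0 < z.1
      · have e1 := hz1 h0
        have e2 := hz2 h0
        have e3 : |chi a δ z.1 * F z.1 z.2| ≤ d * K * B + H := by
          rw [abs_mul]
          calc |chi a δ z.1| * |F z.1 z.2| ≤ 1 * (d * K * B + H) :=
                mul_le_mul (chi_abs _ _ _) e1 (abs_nonneg _) zero_le_one
            _ = _ := one_mul _
        have e4 : |deriv (chi a δ) z.1 * Phi S F z.1 z.2| ≤ (Cs / δ) * (H * (S + 1)) := by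
          rw [abs_mul]
          exact mul_le_mul (chi_deriv_bd hCs hδ _) e2 (abs_nonneg _) (by positivity)
        exact (abs_sub _ _).trans (add_le_add e3 e4)
      · push Not at h0
        rw [hsrc.supp _ (Or.inl h0), chi_deriv_one hδ (by linarith)]
        simpa using hB'0
    have hz' : ∀ t, a + 2 * δ ≤ t → ∀ x,
        (fun t x => chi a δ t * F t x - deriv (chi a δ) t * Phi S F t x) t x = 0 := by
      intro t ht x
      simp only
      rw [chi_zero hδ (by linarith), chi_deriv_zero hδ (by linarith)]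
      ring
    have hv2 := hvel B' (a + 2 * δ) hb hz'
    filter_upwards [hae] with z hz h0 hza hzb i
    have e1 := (hz h0).2 i
    rw [chi_one hδ hza, one_mul] at e1
    have e2 : v z.1 z.2 i = Vel S F i z.1 z.2 := hdual.eq _ _ _
    rw [e2, e1]
    refine (hv2 i z.1 (by linarith) z.2).trans ?_
    refine mul_le_mul_of_nonneg_left (Real.sqrt_le_sqrt ?_) (by positivity)
    rw [ha]
    nlinarith
  have hall := ae_all_iff.2 hcut
  filter_upwards [hall] with z hz h0 i
  -- choose the window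
  have hq : 0 < z.1 / δ := by positivity
  obtain ⟨j, hj⟩ : ∃ j : ℕ, ⌈z.1 / δ⌉₊ = j + 1 :=
    Nat.exists_eq_succ_of_ne_zero (Nat.pos_iff_ne_zero.1 (Nat.ceil_pos.2 hq))
  have e1 : z.1 ≤ (j + 1) * δ := by
    have := Nat.le_ceil (z.1 / δ)
    rw [hj, div_le_iff₀ hδ] at this
    push_cast at this
    exact this
  have e2 : j * δ < z.1 := by
    have h3 : j < ⌈z.1 / δ⌉₊ := by omega
    rw [Nat.lt_ceil, lt_div_iff₀ hδ] at h3
    exact h3
  refine (hz j h0 e1 e2 i).trans ?_
  rw [hs3, hB']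
  have hdK0 : 0 < (d : ℝ) * K := by positivity
  have e3 : 2 * (↑d * K * B + H + Cs / δ * (H * (S + 1))) * (1 / (4 * (↑d * K))) =
      B / 2 + H / (2 * (d * K)) + 24 * (d * K) * Cs * (H * (S + 1)) := by
    rw [hδdef]
    field_simp
    ring
  rw [e3]
  have e4 : H / (2 * (d * K)) ≤ H * K := by
    rw [div_le_iff₀ (by positivity)]
    nlinarith [mul_nonneg hH (by linarith : (0 : ℝ) ≤ K), mul_nonneg hH hdK0.le,
      mul_le_mul hK hdK zero_le_one (by linarith : (0 : ℝ) ≤ K)]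
  nlinarith

theorem main (hKB : S_KB) (hCUT : S_CUT) (hMAX : S_MAX) : S_GRAD := by
  intro d S H hS hH
  obtain ⟨C, hC, hstep⟩ := step hKB hCUT hMAX d S H hS hH
  refine ⟨2 * C, by positivity, ?_⟩
  intro K c h v hK hdual
  obtain ⟨B0, hB0⟩ := hdual.bv
  have h1 : ∀ n : ℕ, ∀ᵐ z : ℝ × (Fin d → ℝ), 0 < z.1 → ∀ i, |v z.1 z.2 i| ≤
      |B0| * (1 / 2) ^ n + 2 * C * K := by
    intro n
    induction n with
    | zero =>
      refine Eventually.of_forall fun z _ i => ?_
      rw [pow_zero, mul_one]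
      have := (hB0 z.1 z.2 i).trans (le_abs_self B0)
      have h2 : 0 ≤ 2 * C * K := by positivity
      linarith
    | succ n ih =>
      have h2 := hstep K c h v hK hdual _ (by positivity) ih
      filter_upwards [h2] with z hz h0 i
      refine (hz h0 i).trans (le_of_eq ?_)
      rw [pow_succ]
      ring
  filter_upwards [ae_all_iff.2 h1] with z hz h0 i
  have h3 : Tendsto (fun n : ℕ => |B0| * (1 / 2 : ℝ) ^ n + 2 * C * K) atTop
      (𝓝 (|B0| * 0 + 2 * C * K)) :=
    (tendsto_const_nhds.mul (tendsto_pow_atTop_nhds_zero_of_lt_one (by norm_num)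
      (by norm_num))).add_const _
  rw [mul_zero, zero_add] at h3
  exact ge_of_tendsto' h3 fun n => hz n h0 i

end Pool.Agent.Helper19.ND.GRAD
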