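import Pool.Agent.Helper19.ND.MAXa

/-!
# ND, part MAX: the maximum principle
-/

set_option autoImplicit false

namespace Pool.Agent.Helper19.ND.MAX

open Pool.Agent.Helper28.ND Pool.Agent.Helper19.ND MeasureTheory Set Filter Topology

theorem pw (w c V K : ℝ) (hw : 0 ≤ w) (hc : |c| ≤ K) :
    3 * w ^ 2 * (c * V) ≤ 6 * w * V ^ 2 + 3 / 8 * K ^ 2 * w ^ 3 := by
  have h1 : c * V ≤ K * |V| := by
    refine (le_abs_self _).trans ?_
    rw [abs_mul]
    exact mul_le_mul_of_nonneg_right hc (abs_nonneg _)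
  have h2 : 0 ≤ 6 * w * (|V| - K / 4 * w) ^ 2 := by positivity
  have h3 : 3 * w ^ 2 * (c * V) ≤ 3 * w ^ 2 * (K * |V|) :=
    mul_le_mul_of_nonneg_left h1 (by positivity)
  nlinarith [sq_abs V]

theorem upper (hWEQ : S_WEQ) (hKB : S_KB) (hMOLG : S_MOLG) (hMOLD : S_MOLD) (hENER : S_ENER)
    {d : ℕ} {S K H : ℝ} {c : ℝ → (Fin d → ℝ) → (Fin d → ℝ)} {h : ℝ → (Fin d → ℝ) → ℝ}
    {v : ℝ → (Fin d → ℝ) → (Fin d → ℝ)} (hS : 1 < S) (hdual : Dual d S K H c h v) :
    ∀ᵐ z : ℝ × (Fin d → ℝ), 0 < z.1 → Phi S (FF c h v) z.1 z.2 ≤ H * (S + 1) := by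
  have hS0 : 0 < S := by linarith
  have hH0 : 0 ≤ H := le_trans (abs_nonneg _) (hdual.dat.bh 0 0)
  have hsrc : Src S (FF c h v) := PIC.ff_src hdual.dat ⟨hdual.measv, hdual.perv, hdual.bv⟩
  set F := FF c h v with hFdef
  have hF : BMP F := ⟨hsrc.meas, hsrc.per, hsrc.bdd⟩
  obtain ⟨hφ, hV, hz, _⟩ := hKB d S F hS0 hsrc
  set φ := Phi S F with hφdef
  set V : Fin d → ℝ → (Fin d → ℝ) → ℝ := fun i => Vel S F i with hVdef
  obtain ⟨mφs, mφb, mφc, mφz⟩ := hMOLG d φ hφ
  obtain ⟨mFs, mFb, mFc, _⟩ := hMOLG d F hF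
  have mV := fun i => hMOLG d (V i) (hV i)
  obtain ⟨Bφ, hBφ⟩ := hφ.bdd
  obtain ⟨BF, hBF⟩ := hF.bdd
  choose BV hBV using fun i => (hV i).bdd
  have hBφ0 : 0 ≤ Bφ := le_trans (abs_nonneg _) (hBφ 0 0)
  have hBF0 : 0 ≤ BF := le_trans (abs_nonneg _) (hBF 0 0)
  have hBV0 : ∀ i, 0 ≤ BV i := fun i => le_trans (abs_nonneg _) (hBV i 0 0)
  have bφ := mφb Bφ (Eventually.of_forall fun z _ => hBφ _ _)
  have bF := mFb BF (Eventually.of_forall fun z _ => hBF _ _)
  have bV := fun i => (mV i).2.1 (BV i) (Eventually.of_forall fun z _ => hBV i _ _)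
  have dφ := (hMOLD d φ F hφ hF).1 (fun f hf => (hWEQ d S F hS0 hsrc f hf).1)
  have dV := fun i => (hMOLD d φ (V i) hφ (hV i)).2 i (fun f hf => (hWEQ d S F hS0 hsrc f hf).2 i)
  set T1 : ℝ := S + 1 with hT1
  let M : ℝ → ℝ := fun t => H * (T1 - t)
  have hMs : ContDiff ℝ 1 M := by
    change ContDiff ℝ 1 fun t => H * (T1 - t)
    fun_prop
  have hMd : ∀ t, deriv M t = -H := by
    intro t
    have h1 : HasDerivAt M (H * (-1)) t := ((hasDerivAt_id t).const_sub T1).const_mul H
    rw [h1.deriv]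
    ring
  -- measurability
  have msφ : ∀ n, Measurable (U (mol n φ)) := fun n => (mφs n).smooth.continuous.measurable
  have msF : ∀ n, Measurable (U (mol n F)) := fun n => (mFs n).smooth.continuous.measurable
  have msV : ∀ i n, Measurable (U (mol n (V i))) :=
    fun i n => ((mV i).1 n).smooth.continuous.measurable
  let W : ℕ → ℝ × (Fin d → ℝ) → ℝ := fun n z => U (mol n φ) z - H * (T1 - z.1)
  let J : ℕ → ℝ × (Fin d → ℝ) → ℝ := fun n z =>
    3 * (max (W n z) 0) ^ 2 * (U (mol n F) z - H) -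
      6 * (max (W n z) 0) * ∑ i, (U (mol n (V i)) z) ^ 2
  let R : ℕ → ℝ × (Fin d → ℝ) → ℝ := fun n z =>
    U (mol n F) z - ((∑ i, (U c z) i * U (mol n (V i)) z) + U h z)
  have mW : ∀ n, Measurable (W n) := fun n => (msφ n).sub (by fun_prop)
  have mG : ∀ n, Measurable fun z => gg (W n z) := fun n => ((mW n).max measurable_const).pow_const 3
  have mJ : ∀ n, Measurable (J n) := by
    intro n
    refine Measurable.sub ?_ ?_
    · exact ((((mW n).max measurable_const).pow_const 2).const_mul 3).mul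
        ((msF n).sub measurable_const)
    · exact (((mW n).max measurable_const).const_mul 6).mul
        (Finset.measurable_fun_sum _ fun i _ => (msV i n).pow_const 2)
  have mR : ∀ n, Measurable (R n) := by
    intro n
    refine (msF n).sub (Measurable.add (Finset.measurable_fun_sum _ fun i _ => ?_) hdual.dat.meash)
    exact ((measurable_pi_apply i).comp hdual.dat.measc).mul (msV i n)
  have mRa : ∀ n, Measurable fun z => |R n z| := fun n => (mR n).abs
  -- bounds
  have hwb : ∀ (n : ℕ) t x, 1 / (4 * ((n : ℝ) + 1)) < t → t ≤ T1 →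
      0 ≤ max (W n (t, x)) 0 ∧ max (W n (t, x)) 0 ≤ Bφ := by
    intro n t x h1 h2
    refine ⟨le_max_right _ _, max_le ?_ hBφ0⟩
    have h3 := (le_abs_self _).trans (bφ n t x h1)
    have h4 : 0 ≤ H * (T1 - t) := mul_nonneg hH0 (by linarith)
    change mol n φ t x - H * (T1 - t) ≤ Bφ
    linarith
  have hgb : ∀ (n : ℕ) t x, 1 / (4 * ((n : ℝ) + 1)) < t → t ≤ T1 → |gg (W n (t, x))| ≤ Bφ ^ 3 := by
    intro n t x h1 h2
    obtain ⟨a1, a2⟩ := hwb n t x h1 h2
    unfold gg
    rw [abs_of_nonneg (by positivity)]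
    exact pow_le_pow_left₀ a1 a2 3
  set CR : ℝ := BF + (∑ i, |K| * BV i) + H with hCR
  have hRb : ∀ (n : ℕ) t x, 1 / (4 * ((n : ℝ) + 1)) < t → |R n (t, x)| ≤ CR := by
    intro n t x h1
    change |mol n F t x - ((∑ i, c t x i * mol n (V i) t x) + h t x)| ≤ CR
    refine (abs_sub _ _).trans ?_
    have e1 := bF n t x h1
    have e2 : |(∑ i, c t x i * mol n (V i) t x) + h t x| ≤ (∑ i, |K| * BV i) + H := by
      refine (abs_add_le _ _).trans (add_le_add ?_ (hdual.dat.bh t x))
      refine (Finset.abs_sum_le_sum_abs _ _).trans (Finset.sum_le_sum fun i _ => ?_)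
      rw [abs_mul]
      exact mul_le_mul ((hdual.dat.bc t x i).trans (le_abs_self K)) (bV i n t x h1) (abs_nonneg _)
        (abs_nonneg _)
    linarith
  set CJ : ℝ := 3 * Bφ ^ 2 * (BF + H) + 6 * Bφ * ∑ i, (BV i) ^ 2 with hCJ
  have hJb : ∀ (n : ℕ) t x, 1 / (4 * ((n : ℝ) + 1)) < t → t ≤ T1 → |J n (t, x)| ≤ CJ := by
    intro n t x h1 h2
    obtain ⟨a1, a2⟩ := hwb n t x h1 h2
    set w := max (W n (t, x)) 0 with hw
    change |3 * w ^ 2 * (mol n F t x - H) - 6 * w * ∑ i, (mol n (V i) t x) ^ 2| ≤ CJ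
    refine (abs_sub _ _).trans (add_le_add ?_ ?_)
    · rw [abs_mul, abs_of_nonneg (by positivity : (0 : ℝ) ≤ 3 * w ^ 2)]
      have e1 : |mol n F t x - H| ≤ BF + H := by
        refine (abs_sub _ _).trans ?_
        rw [abs_of_nonneg hH0]
        linarith [bF n t x h1]
      have e2 : 3 * w ^ 2 ≤ 3 * Bφ ^ 2 := by
        have := pow_le_pow_left₀ a1 a2 2
        linarith
      exact mul_le_mul e2 e1 (abs_nonneg _) (by positivity)
    · have e0 : 0 ≤ ∑ i, (mol n (V i) t x) ^ 2 := Finset.sum_nonneg fun i _ => sq_nonneg _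
      rw [abs_of_nonneg (by positivity)]
      have e1 : ∑ i, (mol n (V i) t x) ^ 2 ≤ ∑ i, (BV i) ^ 2 := by
        refine Finset.sum_le_sum fun i _ => ?_
        rw [← sq_abs]
        exact pow_le_pow_left₀ (abs_nonneg _) (bV i n t x h1) 2
      exact mul_le_mul (by linarith) e1 e0 (by positivity)
  set A : ℝ := d * (3 / 8 * K ^ 2) with hA
  have hA0 : 0 ≤ A := by positivity
  set G1 : ℝ := 3 * Bφ ^ 2 with hG1
  have hG10 : 0 ≤ G1 := by positivity
  have hpt : ∀ (n : ℕ) t x, 1 / (4 * ((n : ℝ) + 1)) < t → t ≤ T1 →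
      J n (t, x) ≤ A * gg (W n (t, x)) + G1 * |R n (t, x)| := by
    intro n t x h1 h2
    obtain ⟨a1, a2⟩ := hwb n t x h1 h2
    set w := max (W n (t, x)) 0 with hw
    have e1 : mol n F t x - H = R n (t, x) + (∑ i, c t x i * mol n (V i) t x) +
        (h t x - H) := by
      change _ = (mol n F t x - ((∑ i, c t x i * mol n (V i) t x) + h t x)) + _ + _
      ring
    have e2 : h t x - H ≤ 0 := by
      have := (le_abs_self _).trans (hdual.dat.bh t x)
      linarith
    have e3 : 3 * w ^ 2 * (∑ i, c t x i * mol n (V i) t x) ≤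
        6 * w * (∑ i, (mol n (V i) t x) ^ 2) + A * w ^ 3 := by
      have e4 : 6 * w * (∑ i, (mol n (V i) t x) ^ 2) + A * w ^ 3 =
          ∑ i : Fin d, (6 * w * (mol n (V i) t x) ^ 2 + 3 / 8 * K ^ 2 * w ^ 3) := by
        rw [Finset.sum_add_distrib, Finset.mul_sum, Finset.sum_const, Finset.card_univ,
          Fintype.card_fin, nsmul_eq_mul, hA]
        ring
      rw [e4, Finset.mul_sum]
      exact Finset.sum_le_sum fun i _ => pw w _ _ K a1 (hdual.dat.bc t x i)
    have e5 : 3 * w ^ 2 * R n (t, x) ≤ G1 * |R n (t, x)| := by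
      have e6 : 3 * w ^ 2 ≤ G1 := by
        have := pow_le_pow_left₀ a1 a2 2
        rw [hG1]
        linarith
      calc 3 * w ^ 2 * R n (t, x) ≤ 3 * w ^ 2 * |R n (t, x)| :=
            mul_le_mul_of_nonneg_left (le_abs_self _) (by positivity)
        _ ≤ G1 * |R n (t, x)| := mul_le_mul_of_nonneg_right e6 (abs_nonneg _)
    have e7 : 3 * w ^ 2 * (h t x - H) ≤ 0 := mul_nonpos_of_nonneg_of_nonpos (by positivity) e2
    change 3 * w ^ 2 * (mol n F t x - H) - 6 * w * (∑ i, (mol n (V i) t x) ^ 2) ≤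
      A * w ^ 3 + G1 * |R n (t, x)|
    rw [e1]
    nlinarith
  let Y : ℕ → ℝ → ℝ := fun n t => ∫ x in Q d, gg (W n (t, x))
  -- the energy identity
  have hen : ∀ (n : ℕ) τ, 1 / (4 * ((n : ℝ) + 1)) ≤ τ → τ ≤ T1 →
      Y n τ = ∫ t in Ioc τ T1, ∫ x in Q d, J n (t, x) := by
    intro n τ h1 h2
    have h3 := hENER d (mol n φ) gg M (mφs n) gg_smooth hMs τ T1 h2
    have hn4 : 1 / (4 * ((n : ℝ) + 1)) ≤ 1 := by
      rw [div_le_one (by positivity)]
      have : (0 : ℝ) ≤ n := n.cast_nonneg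
      linarith
    have h4 : ∫ x in Q d, gg (mol n φ T1 x - M T1) = 0 := by
      have h5 : ∀ x, gg (mol n φ T1 x - M T1) = 0 := by
        intro x
        rw [mφz S (fun t ht x => (hz t ht x).1) n T1 (by rw [hT1]; linarith) x]
        change gg (0 - H * (T1 - T1)) = 0
        unfold gg
        simp
      simp [h5]
    rw [h4, zero_sub] at h3
    have h6 : Y n τ = -∫ t in Ioc τ T1, ∫ x in Q d,
        (deriv gg (mol n φ t x - M t) * (dt (mol n φ) t x + lap (mol n φ t) x - deriv M t) +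
          deriv (deriv gg) (mol n φ t x - M t) * ∑ i, (pd i (mol n φ t) x) ^ 2) := by
      rw [← h3, neg_neg]
      rfl
    rw [h6, ← integral_neg]
    refine setIntegral_congr_fun measurableSet_Ioc fun t ht => ?_
    have ht' : 1 / (4 * ((n : ℝ) + 1)) < t := lt_of_le_of_lt h1 ht.1
    change -∫ x in Q d, _ = ∫ x in Q d, J n (t, x)
    rw [← integral_neg]
    refine integral_congr_ae (Eventually.of_forall fun x => ?_)
    change -(deriv gg (mol n φ t x - M t) * (dt (mol n φ) t x + lap (mol n φ t) x - deriv M t) +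
      deriv (deriv gg) (mol n φ t x - M t) * ∑ i, (pd i (mol n φ t) x) ^ 2) =
      3 * (max (mol n φ t x - H * (T1 - t)) 0) ^ 2 * (mol n F t x - H) -
      6 * (max (mol n φ t x - H * (T1 - t)) 0) * ∑ i, (mol n (V i) t x) ^ 2
    rw [dφ n t x ht', hMd, gg_deriv2, gg_deriv]
    have h7 : ∑ i, (pd i (mol n φ t) x) ^ 2 = ∑ i, (mol n (V i) t x) ^ 2 :=
      Finset.sum_congr rfl fun i _ => by rw [dV i n t x ht']
    rw [h7]
    change -(3 * (max (mol n φ t x - H * (T1 - t)) 0) ^ 2 * (-mol n F t x - -H) +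
      6 * (max (mol n φ t x - H * (T1 - t)) 0) * ∑ i, (mol n (V i) t x) ^ 2) = _
    ring
  -- the limit function
  let Wl : ℝ × (Fin d → ℝ) → ℝ := fun z => U φ z - H * (T1 - z.1)
  have hlimW : ∀ᵐ z : ℝ × (Fin d → ℝ), Tendsto (fun n => gg (W n z)) atTop (𝓝 (gg (Wl z))) := by
    filter_upwards [mφc] with z hz1
    have hc : Continuous gg := by
      unfold gg
      fun_prop
    exact (hc.tendsto _).comp (hz1.sub_const _)
  have hlimR : ∀ᵐ z : ℝ × (Fin d → ℝ), Tendsto (fun n => |R n z|) atTop (𝓝 0) := by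
    have hall : ∀ᵐ z : ℝ × (Fin d → ℝ), ∀ i, Tendsto (fun n => U (mol n (V i)) z) atTop
        (𝓝 (U (V i) z)) := ae_all_iff.2 fun i => (mV i).2.2.1
    filter_upwards [hall, mFc] with z hz1 hz2
    have h1 : Tendsto (fun n => R n z) atTop (𝓝 (U F z - ((∑ i, (U c z) i * U (V i) z) + U h z))) := by
      refine hz2.sub (Tendsto.add_const _ (tendsto_finsetSum _ fun i _ => ?_))
      exact (hz1 i).const_mul _
    have h2 : U F z - ((∑ i, (U c z) i * U (V i) z) + U h z) = 0 := by
      change F z.1 z.2 - ((∑ i, c z.1 z.2 i * Vel S F i z.1 z.2) + h z.1 z.2) = 0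
      have h3 : F z.1 z.2 = (∑ i, c z.1 z.2 i * v z.1 z.2 i) + h z.1 z.2 := rfl
      rw [h3]
      have h4 : ∀ i, v z.1 z.2 i = Vel S F i z.1 z.2 := fun i => hdual.eq _ _ _
      simp_rw [h4]
      ring
    rw [h2] at h1
    have := h1.abs
    rwa [abs_zero] at this
  -- the main step
  have key : ∀ τ0 : ℝ, 0 < τ0 → τ0 ≤ T1 →
      ∀ᵐ z : ℝ × (Fin d → ℝ), z ∈ Ioc τ0 T1 ×ˢ Q d → gg (Wl z) = 0 := by
    intro τ0 hτ0 hτ1
    set Pr : Set (ℝ × (Fin d → ℝ)) := Ioc τ0 T1 ×ˢ Q d with hPr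
    have hPm : MeasurableSet Pr := measurableSet_Ioc.prod (meas_Q d)
    have hPf : IsFiniteMeasure ((volume : Measure (ℝ × (Fin d → ℝ))).restrict Pr) := by
      refine ⟨?_⟩
      rw [Measure.restrict_apply_univ, Measure.volume_eq_prod, Measure.prod_prod, vol_Q, mul_one,
        Real.volume_Ioc]
      exact ENNReal.ofReal_lt_top
    have hev : ∀ᶠ n : ℕ in atTop, 1 / (4 * ((n : ℝ) + 1)) < τ0 := by
      have h1 : Tendsto (fun n : ℕ => (1 / 4 : ℝ) * (1 / ((n : ℝ) + 1))) atTop (𝓝 (1 / 4 * 0)) :=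
        tendsto_one_div_add_atTop_nhds_zero_nat.const_mul _
      rw [mul_zero] at h1
      filter_upwards [h1.eventually (gt_mem_nhds hτ0)] with n hn
      have h2 : 1 / (4 * ((n : ℝ) + 1)) = (1 / 4 : ℝ) * (1 / ((n : ℝ) + 1)) := by
        field_simp
      rw [h2]
      exact hn
    let δ : ℕ → ℝ := fun n => G1 * ∫ z in Pr, |R n z|
    have hδ0 : ∀ n, 0 ≤ δ n := fun n =>
      mul_nonneg hG10 (integral_nonneg fun z => abs_nonneg _)
    have hδlim : Tendsto δ atTop (𝓝 0) := by
      have h1 : Tendsto (fun n => ∫ z in Pr, |R n z|) atTop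
          (𝓝 (∫ _z in Pr, (0 : ℝ))) := by
        refine tendsto_integral_filter_of_dominated_convergence (fun _ => CR) ?_ ?_
          (integrable_const _) ?_
        · exact Eventually.of_forall fun n => (mRa n).aestronglyMeasurable
        · filter_upwards [hev] with n hn
          refine (ae_restrict_iff' hPm).2 (Eventually.of_forall fun z hz1 => ?_)
          rw [Real.norm_eq_abs, abs_abs]
          exact hRb n z.1 z.2 (hn.trans hz1.1.1)
        · exact ae_restrict_of_ae hlimR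
      rw [integral_zero] at h1
      have h2 := h1.const_mul G1
      rwa [mul_zero] at h2
    have hYb : ∀ᶠ n : ℕ in atTop, ∫ z in Pr, gg (W n z) ≤
        (T1 - τ0) * (2 * δ n * Real.exp (2 * (A + 1) * T1)) := by
      filter_upwards [hev] with n hn
      have hb1 := bm (fun z => gg (W n z)) (mG n) τ0 T1 (Bφ ^ 3)
        (fun t x h1 h2 => hgb n t x (hn.trans h1) h2)
      have hYi : IntegrableOn (Y n) (Ioc τ0 T1) := hb1.2.1
      have hgr := gron (Y n) τ0 T1 A (Bφ ^ 3) (δ n) hA0 (by positivity) (hδ0 n) (by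
          intro τ h1 h2
          have h3 := norm_integral_le_of_norm_le (μ := volume.restrict (Q d))
            (integrable_const (Bφ ^ 3)) (f := fun x => gg (W n (τ, x)))
            (Eventually.of_forall fun x => hgb n τ x (lt_of_lt_of_le hn h1) h2)
          refine (le_abs_self _).trans (h3.trans (le_of_eq ?_))
          simp) hYi (by
          intro τ h1 h2
          have hJ := bm (J n) (mJ n) τ T1 CJ
            (fun t x h3 h4 => hJb n t x (hn.trans (lt_of_le_of_lt h1 h3)) h4)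
          have hG := bm (fun z => gg (W n z)) (mG n) τ T1 (Bφ ^ 3)
            (fun t x h3 h4 => hgb n t x (hn.trans (lt_of_le_of_lt h1 h3)) h4)
          have hR := bm (fun z => |R n z|) (mRa n) τ0 T1 CR (fun t x h3 h4 => by
            rw [abs_abs]
            exact hRb n t x (hn.trans h3))
          have hsub : Ioc τ T1 ×ˢ Q d ⊆ Pr := Set.prod_mono (Ioc_subset_Ioc_left h1) Subset.rfl
          rw [hen n τ (hn.le.trans h1) h2, hJ.2.2.2]
          have e1 : ∫ z in Ioc τ T1 ×ˢ Q d, J n z ≤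
              ∫ z in Ioc τ T1 ×ˢ Q d, (A * gg (W n z) + G1 * |R n z|) := by
            refine setIntegral_mono_on hJ.2.2.1
              ((hG.2.2.1.const_mul A).add ((hR.2.2.1.mono_set hsub).const_mul G1))
              (measurableSet_Ioc.prod (meas_Q d)) fun z hz1 => ?_
            exact hpt n z.1 z.2 (hn.trans (lt_of_le_of_lt h1 hz1.1.1)) hz1.1.2
          have e2 : ∫ z in Ioc τ T1 ×ˢ Q d, (A * gg (W n z) + G1 * |R n z|) =
              A * (∫ z in Ioc τ T1 ×ˢ Q d, gg (W n z)) +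
                G1 * ∫ z in Ioc τ T1 ×ˢ Q d, |R n z| := by
            rw [integral_add (hG.2.2.1.const_mul A) ((hR.2.2.1.mono_set hsub).const_mul G1),
              integral_const_mul, integral_const_mul]
          have e3 : ∫ z in Ioc τ T1 ×ˢ Q d, |R n z| ≤ ∫ z in Pr, |R n z| :=
            setIntegral_mono_set hR.2.2.1 (Eventually.of_forall fun z => abs_nonneg _)
              (Eventually.of_forall hsub)
          have e4 : ∫ z in Ioc τ T1 ×ˢ Q d, gg (W n z) = ∫ t in Ioc τ T1, Y n t :=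
            hG.2.2.2.symm
          rw [e2, e4] at e1
          refine e1.trans (add_le_add le_rfl (mul_le_mul_of_nonneg_left e3 hG10)))
      have e5 : ∫ z in Pr, gg (W n z) = ∫ t in Ioc τ0 T1, Y n t := hb1.2.2.2.symm
      rw [e5]
      have e6 : ∫ t in Ioc τ0 T1, Y n t ≤
          ∫ _t in Ioc τ0 T1, (2 * δ n * Real.exp (2 * (A + 1) * T1)) := by
        refine setIntegral_mono_on hYi (integrableOn_const (by
            rw [Real.volume_Ioc]
            exact ENNReal.ofReal_ne_top)) measurableSet_Ioc fun t ht => ?_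
        refine (hgr t ht.1.le ht.2).trans ?_
        refine mul_le_mul_of_nonneg_left (Real.exp_le_exp.2 ?_) (mul_nonneg zero_le_two (hδ0 n))
        refine mul_le_mul_of_nonneg_left ?_ (by positivity)
        linarith [ht.1]
      refine e6.trans (le_of_eq ?_)
      rw [setIntegral_const, measureReal_def, Real.volume_Ioc,
        ENNReal.toReal_ofReal (by linarith), smul_eq_mul]
    have hconv : Tendsto (fun n => ∫ z in Pr, gg (W n z)) atTop (𝓝 (∫ z in Pr, gg (Wl z))) := by
      refine tendsto_integral_filter_of_dominated_convergence (fun _ => Bφ ^ 3) ?_ ?_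
        (integrable_const _) ?_
      · exact Eventually.of_forall fun n => (mG n).aestronglyMeasurable
      · filter_upwards [hev] with n hn
        refine (ae_restrict_iff' hPm).2 (Eventually.of_forall fun z hz1 => ?_)
        exact hgb n z.1 z.2 (hn.trans hz1.1.1) hz1.1.2
      · exact ae_restrict_of_ae hlimW
    have hle : ∫ z in Pr, gg (Wl z) ≤ 0 := by
      have h1 : Tendsto (fun n => (T1 - τ0) * (2 * δ n * Real.exp (2 * (A + 1) * T1))) atTop
          (𝓝 ((T1 - τ0) * (2 * 0 * Real.exp (2 * (A + 1) * T1)))) :=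
        ((hδlim.const_mul 2).mul_const _).const_mul _
      rw [mul_zero, zero_mul, mul_zero] at h1
      exact le_of_tendsto_of_tendsto hconv h1 hYb
    have hnn : ∀ z, 0 ≤ gg (Wl z) := fun z => by
      unfold gg
      positivity
    have hmWl : Measurable fun z => gg (Wl z) :=
      ((hφ.meas.sub (by fun_prop)).max measurable_const).pow_const 3
    have hint : IntegrableOn (fun z => gg (Wl z)) Pr := by
      refine (bm (fun z => gg (Wl z)) hmWl τ0 T1 (Bφ ^ 3) (fun t x h1 h2 => ?_)).2.2.1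
      rw [abs_of_nonneg (hnn _)]
      unfold gg
      refine pow_le_pow_left₀ (le_max_right _ _) (max_le ?_ hBφ0) 3
      have h3 := (le_abs_self _).trans (hBφ t x)
      have h4 : 0 ≤ H * (T1 - t) := mul_nonneg hH0 (by linarith)
      change φ t x - H * (T1 - t) ≤ Bφ
      linarith
    have hzero : ∫ z in Pr, gg (Wl z) = 0 := le_antisymm hle (integral_nonneg hnn)
    have h5 := (integral_eq_zero_iff_of_nonneg (μ := volume.restrict Pr) hnn hint).1 hzero
    have h6 := (ae_restrict_iff' hPm).1 h5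
    filter_upwards [h6] with z hz1 hz2
    exact hz1 hz2
  have hkey2 := ae_all_iff.2 fun m : ℕ => (by
    by_cases hm : 1 / ((m : ℝ) + 1) ≤ T1
    · exact key (1 / ((m : ℝ) + 1)) (by positivity) hm
    · refine Eventually.of_forall fun z hz1 => ?_
      exfalso
      push Not at hm
      have h1 := hz1.1.1
      have h2 := hz1.1.2
      linarith : ∀ᵐ z : ℝ × (Fin d → ℝ), z ∈ Ioc (1 / ((m : ℝ) + 1)) T1 ×ˢ Q d → gg (Wl z) = 0)
  refine per_ae (fun z => 0 < z.1 → φ z.1 z.2 ≤ H * T1) ?_ ?_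
  · intro t x k h1 h0
    have h2 := h1 h0
    change φ t (fun i => x i + (k i : ℝ)) ≤ H * T1 at h2
    rw [hφ.per t x k] at h2
    exact h2
  · filter_upwards [hkey2] with z hz1 hzQ h0
    by_cases hT : T1 < z.1
    · rw [(hz z.1 (by rw [hT1] at hT; linarith) z.2).1]
      positivity
    · push Not at hT
      obtain ⟨m, hm⟩ := exists_nat_one_div_lt h0
      have h1 := hz1 m ⟨⟨hm, hT⟩, hzQ⟩
      have h2 : Wl z ≤ 0 := by
        by_contra hcon
        push Not at hcon
        unfold gg at h1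
        rw [max_eq_left hcon.le] at h1
        have := pow_pos hcon 3
        linarith
      have h3 : φ z.1 z.2 - H * (T1 - z.1) ≤ 0 := h2
      nlinarith

theorem phi_neg {d : ℕ} (S : ℝ) (F : ℝ → (Fin d → ℝ) → ℝ) (t : ℝ) (x : Fin d → ℝ) :
    Phi S (fun t x => -F t x) t x = -Phi S F t x := by
  unfold Phi
  rw [← integral_neg]
  refine integral_congr_ae (Eventually.of_forall fun r => ?_)
  simp only
  rw [integral_neg]

theorem vel_neg {d : ℕ} (S : ℝ) (F : ℝ → (Fin d → ℝ) → ℝ) (i : Fin d) (t : ℝ) (x : Fin d → ℝ) :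
    Vel S (fun t x => -F t x) i t x = -Vel S F i t x := by
  unfold Vel
  rw [← integral_neg]
  refine integral_congr_ae (Eventually.of_forall fun r => ?_)
  simp only
  rw [← integral_neg]
  refine integral_congr_ae (Eventually.of_forall fun z => ?_)
  simp only
  ring

theorem main (hWEQ : S_WEQ) (hKB : S_KB) (hMOLG : S_MOLG) (hMOLD : S_MOLD) (hENER : S_ENER) :
    S_MAX := by
  intro d S K H c h v hS hdual
  have h1 := upper hWEQ hKB hMOLG hMOLD hENER hS hdual
  have hFF : FF c (fun t x => -h t x) (fun t x i => -v t x i) = fun t x => -FF c h v t x := by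
    funext t x
    unfold FF
    simp only [mul_neg, Finset.sum_neg_distrib]
    ring
  have hdual2 : Dual d S K H c (fun t x => -h t x) (fun t x i => -v t x i) := by
    refine ⟨⟨hdual.dat.measc, hdual.dat.perc, hdual.dat.bc, hdual.dat.sc, ?_, ?_, ?_, ?_⟩,
      ?_, ?_, ?_, ?_⟩
    · exact hdual.dat.meash.neg
    · intro t x k
      change -h t (fun i => x i + (k i : ℝ)) = -h t x
      rw [hdual.dat.perh t x k]
    · intro t x
      rw [abs_neg]
      exact hdual.dat.bh t x
    · intro t ht x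
      change -h t x = 0
      rw [hdual.dat.sh t ht x, neg_zero]
    · exact hdual.measv.neg
    · intro t x k
      change (fun i => -v t (fun i => x i + (k i : ℝ)) i) = fun i => -v t x i
      rw [hdual.perv t x k]
    · obtain ⟨B, hB⟩ := hdual.bv
      refine ⟨B, fun t x i => ?_⟩
      rw [abs_neg]
      exact hB t x i
    · intro t x i
      rw [hFF, vel_neg, ← hdual.eq]
  have h2 := upper hWEQ hKB hMOLG hMOLD hENER hS hdual2
  rw [hFF] at h2
  filter_upwards [h1, h2] with z hz1 hz2 h0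
  have e2 := hz2 h0
  rw [phi_neg] at e2
  rw [abs_le]
  exact ⟨by linarith, hz1 h0⟩

end Pool.Agent.Helper19.ND.MAX
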