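import Pool.Agent.Helper19.ND.PIC

/-!
# ND, part MAX: preparations
-/

set_option autoImplicit false

namespace Pool.Agent.Helper19.ND.MAX

open Pool.Agent.Helper28.ND Pool.Agent.Helper19.ND MeasureTheory Set Filter Topology

theorem hp (n : ℕ) (hn : 1 ≤ n) (s : ℝ) :
    HasDerivAt (fun s : ℝ => (max s 0) ^ (n + 1)) (((n : ℝ) + 1) * (max s 0) ^ n) s := by
  rcases lt_trichotomy s 0 with h | h | h
  · have h1 : (fun s : ℝ => (max s 0) ^ (n + 1)) =ᶠ[𝓝 s] fun _ => (0 : ℝ) := by
      filter_upwards [Iio_mem_nhds h] with y hy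
      have hy' : y < 0 := hy
      rw [max_eq_right hy'.le]
      simp
    have h2 : ((n : ℝ) + 1) * (max s 0) ^ n = 0 := by
      rw [max_eq_right h.le, zero_pow (by omega), mul_zero]
    rw [h2]
    exact (hasDerivAt_const s (0 : ℝ)).congr_of_eventuallyEq h1
  · subst h
    have h2 : ((n : ℝ) + 1) * (max (0 : ℝ) 0) ^ n = 0 := by
      rw [max_self, zero_pow (by omega), mul_zero]
    rw [h2]
    have h3 : (fun s : ℝ => (max s 0) ^ (n + 1)) =O[𝓝 0] fun x : ℝ => ‖x - 0‖ ^ (n + 1) := by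
      refine Asymptotics.IsBigO.of_bound 1 (Eventually.of_forall fun x => ?_)
      rw [sub_zero, one_mul, norm_pow, norm_pow, norm_norm]
      refine pow_le_pow_left₀ (norm_nonneg _) ?_ _
      rw [Real.norm_eq_abs, Real.norm_eq_abs, abs_of_nonneg (le_max_right x 0)]
      exact max_le (le_abs_self x) (abs_nonneg x)
    have h4 := h3.hasFDerivAt (𝕜 := ℝ) (by omega)
    have h5 := h4.hasDerivAt
    simpa using h5
  · have h1 : (fun s : ℝ => (max s 0) ^ (n + 1)) =ᶠ[𝓝 s] fun y => y ^ (n + 1) := by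
      filter_upwards [Ioi_mem_nhds h] with y hy
      have hy' : 0 < y := hy
      rw [max_eq_left hy'.le]
    have h2 := (hasDerivAt_pow (n + 1) s).congr_of_eventuallyEq h1
    rw [max_eq_left h.le]
    have h3 : (((n + 1 : ℕ) : ℝ)) * s ^ (n + 1 - 1) = ((n : ℝ) + 1) * s ^ n := by
      push_cast
      rfl
    rw [h3] at h2
    exact h2

/-- the convex function -/
noncomputable def gg (s : ℝ) : ℝ := (max s 0) ^ 3

theorem gg_deriv : deriv gg = fun s => 3 * (max s 0) ^ 2 := by
  funext s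
  have h1 := (hp 2 (by norm_num) s).deriv
  have h2 : gg = fun s : ℝ => (max s 0) ^ (2 + 1) := rfl
  rw [h2, h1]
  norm_num

theorem gg_deriv2 : deriv (deriv gg) = fun s => 6 * (max s 0) := by
  funext s
  rw [gg_deriv]
  have h1 := ((hp 1 le_rfl s).const_mul 3).deriv
  have h2 : (fun s : ℝ => 3 * (max s 0) ^ 2) = fun s : ℝ => 3 * (max s 0) ^ (1 + 1) := rfl
  rw [h2, h1]
  norm_num
  ring

theorem gg_smooth : ContDiff ℝ 2 gg := by
  have h0 : (2 : WithTop ℕ∞) = 1 + 1 := by norm_num
  rw [h0, contDiff_succ_iff_deriv]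
  refine ⟨fun s => (hp 2 (by norm_num) s).differentiableAt, fun h => absurd h (by simp), ?_⟩
  rw [contDiff_one_iff_deriv]
  constructor
  · rw [gg_deriv]
    intro s
    exact ((hp 1 le_rfl s).const_mul 3).differentiableAt
  · rw [gg_deriv2]
    fun_prop

theorem vol_Q (d : ℕ) : volume (Q d) = 1 := by
  unfold Q
  rw [volume_pi_pi]
  simp

theorem meas_Q (d : ℕ) : MeasurableSet (Q d) := by
  unfold Q
  exact MeasurableSet.univ_pi fun _ => measurableSet_Ioc

instance prob_Q (d : ℕ) : IsProbabilityMeasure (volume.restrict (Q d)) :=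
  ⟨by rw [Measure.restrict_apply_univ, vol_Q]⟩

theorem bm {d : ℕ} (G : ℝ × (Fin d → ℝ) → ℝ) (hG : Measurable G) (a b C : ℝ)
    (hC : ∀ t x, a < t → t ≤ b → |G (t, x)| ≤ C) :
    (∀ t, a < t → t ≤ b → IntegrableOn (fun x => G (t, x)) (Q d)) ∧
    IntegrableOn (fun t => ∫ x in Q d, G (t, x)) (Ioc a b) ∧
    IntegrableOn G (Ioc a b ×ˢ Q d) ∧
    ∫ t in Ioc a b, ∫ x in Q d, G (t, x) = ∫ z in Ioc a b ×ˢ Q d, G z := by
  have h1 : IntegrableOn G (Ioc a b ×ˢ Q d) := by
    have hfin : volume (Ioc a b ×ˢ Q d) ≠ ⊤ := by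
      rw [Measure.volume_eq_prod, Measure.prod_prod, vol_Q, mul_one, Real.volume_Ioc]
      exact ENNReal.ofReal_ne_top
    have hms : MeasurableSet (Ioc a b ×ˢ Q d) := measurableSet_Ioc.prod (meas_Q d)
    refine Measure.integrableOn_of_bounded (M := C) hfin hG.aestronglyMeasurable ?_
    refine (ae_restrict_iff' hms).2 (Eventually.of_forall fun z hz => ?_)
    exact hC z.1 z.2 hz.1.1 hz.1.2
  refine ⟨?_, ?_, h1, ?_⟩
  · intro t h1 h2
    refine Integrable.mono' (integrable_const C)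
      (hG.comp (measurable_prodMk_left)).aestronglyMeasurable
      (Eventually.of_forall fun x => hC t x h1 h2)
  · have hfin : volume (Ioc a b) ≠ ⊤ := by
      rw [Real.volume_Ioc]
      exact ENNReal.ofReal_ne_top
    have hm := hG.stronglyMeasurable.integral_prod_right' (ν := volume.restrict (Q d))
    refine Measure.integrableOn_of_bounded (M := C) hfin hm.aestronglyMeasurable ?_
    refine (ae_restrict_iff' measurableSet_Ioc).2 (Eventually.of_forall fun t ht => ?_)
    have h3 := norm_integral_le_of_norm_le (μ := volume.restrict (Q d)) (integrable_const C)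
      (f := fun x => G (t, x)) (Eventually.of_forall fun x => hC t x ht.1 ht.2)
    refine h3.trans (le_of_eq ?_)
    simp
  · rw [Measure.volume_eq_prod] at h1 ⊢
    exact (setIntegral_prod G h1).symm

theorem per_ae {d : ℕ} (P : ℝ × (Fin d → ℝ) → Prop)
    (hper : ∀ t x (k : Fin d → ℤ), P (t, fun i => x i + (k i : ℝ)) → P (t, x))
    (h : ∀ᵐ z : ℝ × (Fin d → ℝ), z.2 ∈ Q d → P z) : ∀ᵐ z : ℝ × (Fin d → ℝ), P z := by
  have h1 : ∀ k : Fin d → ℤ, ∀ᵐ z : ℝ × (Fin d → ℝ),
      (fun i => z.2 i + (k i : ℝ)) ∈ Q d → P (z.1, fun i => z.2 i + (k i : ℝ)) := by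
    intro k
    have hinst : (volume : Measure (ℝ × (Fin d → ℝ))).IsAddRightInvariant := by
      rw [Measure.volume_eq_prod]
      infer_instance
    have mp := measurePreserving_add_right (volume : Measure (ℝ × (Fin d → ℝ)))
      ((0, fun i => (k i : ℝ)) : ℝ × (Fin d → ℝ))
    have h2 := mp.quasiMeasurePreserving.ae h
    filter_upwards [h2] with z hz hq
    have e1 : z + ((0, fun i => (k i : ℝ)) : ℝ × (Fin d → ℝ)) =
        (z.1, fun i => z.2 i + (k i : ℝ)) := by
      ext
      · simp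
      · simp
    rw [e1] at hz
    exact hz hq
  filter_upwards [ae_all_iff.2 h1] with z hz
  refine hper z.1 z.2 (fun i => 1 - ⌈z.2 i⌉) (hz _ ?_)
  intro i _
  simp only [Int.cast_sub, Int.cast_one]
  have e1 := Int.le_ceil (z.2 i)
  have e2 := Int.ceil_lt_add_one (z.2 i)
  constructor <;> linarith

/-- the iteration for Gronwall's inequality -/
theorem gron (Y : ℝ → ℝ) (τ0 T1 A Ys δ : ℝ) (hA : 0 ≤ A) (hYs : 0 ≤ Ys) (hδ : 0 ≤ δ)
    (hY : ∀ τ, τ0 ≤ τ → τ ≤ T1 → Y τ ≤ Ys) (hYi : IntegrableOn Y (Ioc τ0 T1))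
    (h : ∀ τ, τ0 ≤ τ → τ ≤ T1 → Y τ ≤ A * (∫ t in Ioc τ T1, Y t) + δ) :
    ∀ τ, τ0 ≤ τ → τ ≤ T1 → Y τ ≤ 2 * δ * Real.exp (2 * (A + 1) * (T1 - τ)) := by
  have hk : ∀ k : ℕ, ∀ τ, τ0 ≤ τ → τ ≤ T1 →
      Y τ ≤ (Ys * (1 / 2) ^ k + 2 * δ) * Real.exp (2 * (A + 1) * (T1 - τ)) := by
    intro k
    induction k with
    | zero =>
      intro τ h0 h1
      have e1 : 1 ≤ Real.exp (2 * (A + 1) * (T1 - τ)) := by
        apply Real.one_le_exp
        have : 0 ≤ T1 - τ := by linarith
        positivity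
      rw [pow_zero, mul_one]
      have := hY τ h0 h1
      nlinarith
    | succ k ih =>
      intro τ h0 h1
      set B : ℝ := Ys * (1 / 2) ^ k + 2 * δ with hB
      have hB0 : 0 ≤ B := by positivity
      have hint : IntegrableOn (fun t => B * Real.exp (2 * (A + 1) * (T1 - t))) (Ioc τ T1) := by
        refine (Continuous.integrableOn_Icc (by fun_prop)).mono_set Ioc_subset_Icc_self
      have e2 : ∫ t in Ioc τ T1, Y t ≤ ∫ t in Ioc τ T1, B * Real.exp (2 * (A + 1) * (T1 - t)) := by
        refine setIntegral_mono_on (hYi.mono_set (Ioc_subset_Ioc_left h0)) hint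
          measurableSet_Ioc fun t ht => ?_
        exact ih t (by linarith [ht.1]) ht.2
      have e3 : ∫ t in Ioc τ T1, B * Real.exp (2 * (A + 1) * (T1 - t)) =
          B / (2 * (A + 1)) * (Real.exp (2 * (A + 1) * (T1 - τ)) - 1) := by
        rw [← intervalIntegral.integral_of_le h1]
        have hd : ∀ t ∈ uIcc τ T1, HasDerivAt
            (fun t => -(B / (2 * (A + 1))) * Real.exp (2 * (A + 1) * (T1 - t)))
            (B * Real.exp (2 * (A + 1) * (T1 - t))) t := by
          intro t _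
          have e4 : HasDerivAt (fun t : ℝ => 2 * (A + 1) * (T1 - t)) (2 * (A + 1) * (-1)) t :=
            ((hasDerivAt_id t).const_sub T1).const_mul _
          have e5 := (e4.exp).const_mul (-(B / (2 * (A + 1))))
          refine e5.congr_deriv ?_
          have hA' : (2 * (A + 1)) ≠ 0 := by positivity
          rw [div_eq_mul_inv]
          calc -(B * (2 * (A + 1))⁻¹) * (Real.exp (2 * (A + 1) * (T1 - t)) * (2 * (A + 1) * -1))
              = B * Real.exp (2 * (A + 1) * (T1 - t)) * ((2 * (A + 1))⁻¹ * (2 * (A + 1))) := by ring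
            _ = B * Real.exp (2 * (A + 1) * (T1 - t)) := by rw [inv_mul_cancel₀ hA', mul_one]
        rw [intervalIntegral.integral_eq_sub_of_hasDerivAt hd
          ((by fun_prop : Continuous fun t => B * Real.exp (2 * (A + 1) * (T1 - t))).intervalIntegrable
            _ _)]
        rw [sub_self, mul_zero, Real.exp_zero]
        ring
      have e6 := h τ h0 h1
      have e7 : 1 ≤ Real.exp (2 * (A + 1) * (T1 - τ)) := by
        apply Real.one_le_exp
        have : 0 ≤ T1 - τ := by linarith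
        positivity
      set E : ℝ := Real.exp (2 * (A + 1) * (T1 - τ)) with hE
      have e8 : A * (B / (2 * (A + 1)) * (E - 1)) ≤ B / 2 * E := by
        have e9 : A * (B / (2 * (A + 1)) * (E - 1)) = (A / (A + 1)) * (B / 2 * (E - 1)) := by
          field_simp
        rw [e9]
        have e10 : A / (A + 1) ≤ 1 := by
          rw [div_le_one (by positivity)]
          linarith
        have e11 : 0 ≤ B / 2 * (E - 1) := mul_nonneg (by positivity) (by linarith)
        calc A / (A + 1) * (B / 2 * (E - 1)) ≤ 1 * (B / 2 * (E - 1)) :=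
              mul_le_mul_of_nonneg_right e10 e11
          _ ≤ B / 2 * E := by nlinarith
      have e12 : A * ∫ t in Ioc τ T1, Y t ≤ B / 2 * E := by
        refine le_trans (mul_le_mul_of_nonneg_left (e2.trans (le_of_eq e3)) hA) e8
      have e13 : (Ys * (1 / 2) ^ (k + 1) + 2 * δ) * E = (B / 2 + δ) * E := by
        rw [hB, pow_succ]
        ring
      rw [e13]
      nlinarith
  intro τ h0 h1
  have h3 : Tendsto (fun k : ℕ => (Ys * (1 / 2 : ℝ) ^ k + 2 * δ) *
      Real.exp (2 * (A + 1) * (T1 - τ))) atTop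
      (𝓝 ((Ys * 0 + 2 * δ) * Real.exp (2 * (A + 1) * (T1 - τ)))) := by
    refine Tendsto.mul_const _ (Tendsto.add_const _ (Tendsto.const_mul _ ?_))
    exact tendsto_pow_atTop_nhds_zero_of_lt_one (by norm_num) (by norm_num)
  rw [mul_zero, zero_add] at h3
  exact ge_of_tendsto' h3 fun k => hk k τ h0 h1

end Pool.Agent.Helper19.ND.MAX
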