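import Pool.Agent.Helper19.ND.Tools

/-!
# ND, part PIC: existence by Picard iteration
-/

set_option autoImplicit false

namespace Pool.Agent.Helper19.ND.PIC

open Pool.Agent.Helper28.ND Pool.Agent.Helper19.ND MeasureTheory Set Filter Topology

variable {d : ℕ}

/-- admissible fields -/
structure Adm (v : ℝ → (Fin d → ℝ) → (Fin d → ℝ)) : Prop where
  meas : Measurable (U v)
  per : ∀ t, Per (v t)
  bdd : ∃ B : ℝ, ∀ t x i, |v t x i| ≤ B

theorem ff_meas {S K H : ℝ} {c : ℝ → (Fin d → ℝ) → (Fin d → ℝ)} {h : ℝ → (Fin d → ℝ) → ℝ}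
    (hd : Dat d S K H c h) {v : ℝ → (Fin d → ℝ) → (Fin d → ℝ)} (hv : Measurable (U v)) :
    Measurable (U (FF c h v)) := by
  have h1 : U (FF c h v) = fun z => (∑ i, (U c z) i * (U v z) i) + U h z := rfl
  rw [h1]
  refine Measurable.add (Finset.measurable_fun_sum _ fun i _ => ?_) hd.meash
  exact ((measurable_pi_apply i).comp hd.measc).mul ((measurable_pi_apply i).comp hv)

theorem ff_bd {S K H : ℝ} {c : ℝ → (Fin d → ℝ) → (Fin d → ℝ)} {h : ℝ → (Fin d → ℝ) → ℝ}
    (hd : Dat d S K H c h) {v : ℝ → (Fin d → ℝ) → (Fin d → ℝ)}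
    (hv : ∃ B : ℝ, ∀ t x i, |v t x i| ≤ B) : ∃ B : ℝ, ∀ t x, |FF c h v t x| ≤ B := by
  obtain ⟨B, hB⟩ := hv
  refine ⟨∑ _i : Fin d, |K| * |B| + |H|, fun t x => ?_⟩
  unfold FF
  refine (abs_add_le _ _).trans (add_le_add ?_ ((hd.bh t x).trans (le_abs_self H)))
  refine (Finset.abs_sum_le_sum_abs _ _).trans (Finset.sum_le_sum fun i _ => ?_)
  rw [abs_mul]
  exact mul_le_mul ((hd.bc t x i).trans (le_abs_self K)) ((hB t x i).trans (le_abs_self B))
    (abs_nonneg _) (abs_nonneg _)

theorem ff_src {S K H : ℝ} {c : ℝ → (Fin d → ℝ) → (Fin d → ℝ)} {h : ℝ → (Fin d → ℝ) → ℝ}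
    (hd : Dat d S K H c h) {v : ℝ → (Fin d → ℝ) → (Fin d → ℝ)} (hv : Adm v) :
    Src S (FF c h v) where
  meas := ff_meas hd hv.meas
  per := by
    intro t x k
    unfold FF
    rw [hd.perh t x k, hd.perc t x k, hv.per t x k]
  bdd := ff_bd hd hv.bdd
  supp := by
    intro t ht x
    have h1 : t ≤ 1 ∨ S ≤ t := by
      rcases ht with h | h
      · exact Or.inl (by linarith)
      · exact Or.inr h
    unfold FF
    rw [hd.sh t h1 x]
    simp [hd.sc t h1 x]

/-- the iteration -/
noncomputable def pic (S : ℝ) (c : ℝ → (Fin d → ℝ) → (Fin d → ℝ)) (h : ℝ → (Fin d → ℝ) → ℝ) :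
    ℕ → ℝ → (Fin d → ℝ) → (Fin d → ℝ)
  | 0 => fun _ _ _ => 0
  | n + 1 => fun t x i => Vel S (FF c h (pic S c h n)) i t x

theorem vel_adm (hKB : S_KB) {S : ℝ} (hS : 0 < S) {F : ℝ → (Fin d → ℝ) → ℝ} (hF : Src S F) :
    Adm (fun t x i => Vel S F i t x) := by
  obtain ⟨_, h2, _, _⟩ := hKB d S F hS hF
  refine ⟨?_, ?_, ?_⟩
  · exact measurable_pi_iff.2 fun i => (h2 i).meas
  · intro t x k
    funext i
    exact (h2 i).per t x k
  · choose B hB using fun i => (h2 i).bdd
    refine ⟨∑ i, |B i|, fun t x i => ?_⟩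
    refine ((hB i t x).trans (le_abs_self _)).trans ?_
    exact Finset.single_le_sum (f := fun i => |B i|) (fun i _ => abs_nonneg _) (Finset.mem_univ i)

theorem pic_adm (hKB : S_KB) {S K H : ℝ} {c : ℝ → (Fin d → ℝ) → (Fin d → ℝ)}
    {h : ℝ → (Fin d → ℝ) → ℝ} (hS : 0 < S) (hd : Dat d S K H c h) (n : ℕ) :
    Adm (pic S c h n) := by
  induction n with
  | zero =>
    exact ⟨measurable_const, fun t x k => rfl, ⟨0, fun t x i => by simp [pic]⟩⟩
  | succ n ih => exact vel_adm hKB hS (ff_src hd ih)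

theorem ff_sub (c : ℝ → (Fin d → ℝ) → (Fin d → ℝ)) (h : ℝ → (Fin d → ℝ) → ℝ)
    (v w : ℝ → (Fin d → ℝ) → (Fin d → ℝ)) (t : ℝ) (x : Fin d → ℝ) :
    FF c h v t x - FF c h w t x = ∑ i, c t x i * (v t x i - w t x i) := by
  unfold FF
  simp_rw [mul_sub]
  rw [Finset.sum_sub_distrib]
  ring

theorem vel_ff_sub {S K H : ℝ} {c : ℝ → (Fin d → ℝ) → (Fin d → ℝ)}
    {h : ℝ → (Fin d → ℝ) → ℝ} (hd : Dat d S K H c h) {l N : ℝ} (hl : 0 < l) (hN : 0 ≤ N)
    (hsmall : (d * |K|) * kap l ≤ 1 / 2)
    {v w : ℝ → (Fin d → ℝ) → (Fin d → ℝ)} (hv : Adm v) (hw : Adm w)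
    (hvw : ∀ t x i, |v t x i - w t x i| ≤ N * Real.exp (-l * t)) (t : ℝ) (x : Fin d → ℝ)
    (i : Fin d) :
    |Vel S (FF c h v) i t x - Vel S (FF c h w) i t x| ≤ (N / 2) * Real.exp (-l * t) := by
  obtain ⟨B, hB⟩ := ff_bd hd hv.bdd
  obtain ⟨B', hB'⟩ := ff_bd hd hw.bdd
  rw [← vel_sub S _ _ (ff_meas hd hv.meas) (ff_meas hd hw.meas) B hB B' hB' i t x]
  have h1 : ∀ t x, |FF c h v t x - FF c h w t x| ≤ (d * |K| * N) * Real.exp (-l * t) := by
    intro t x
    rw [ff_sub]
    refine (Finset.abs_sum_le_sum_abs _ _).trans ?_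
    have h2 : ∀ i ∈ (Finset.univ : Finset (Fin d)), |c t x i * (v t x i - w t x i)| ≤
        |K| * (N * Real.exp (-l * t)) := by
      intro i _
      rw [abs_mul]
      exact mul_le_mul ((hd.bc t x i).trans (le_abs_self K)) (hvw t x i) (abs_nonneg _)
        (abs_nonneg _)
    refine (Finset.sum_le_sum h2).trans ?_
    rw [Finset.sum_const, Finset.card_univ, Fintype.card_fin, nsmul_eq_mul]
    apply le_of_eq
    ring
  refine (vel_wt S _ l (d * |K| * N) hl (by positivity) h1 i t x).trans ?_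
  refine mul_le_mul_of_nonneg_right ?_ (Real.exp_pos _).le
  calc d * |K| * N * kap l = (d * |K| * kap l) * N := by ring
    _ ≤ (1 / 2) * N := mul_le_mul_of_nonneg_right hsmall hN
    _ = N / 2 := by ring

theorem kap_small (a : ℝ) (ha : 0 ≤ a) : ∃ l : ℝ, 0 < l ∧ a * kap l ≤ 1 / 2 := by
  refine ⟨16 * (a ^ 2 + 1), by positivity, ?_⟩
  unfold kap
  have h1 : Real.pi / (2 * (16 * (a ^ 2 + 1))) ≤ (1 / (2 * (a + 1))) ^ 2 := by
    rw [div_pow, one_pow, div_le_div_iff₀ (by positivity) (by positivity)]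
    nlinarith [Real.pi_le_four, Real.pi_pos, mul_nonneg Real.pi_pos.le (sq_nonneg (a - 1)), mul_nonneg (sub_nonneg.2 Real.pi_le_four) (sq_nonneg a)]
  have h2 : Real.sqrt (Real.pi / (2 * (16 * (a ^ 2 + 1)))) ≤ 1 / (2 * (a + 1)) := by
    rw [Real.sqrt_le_left (by positivity)]
    exact h1
  calc a * Real.sqrt (Real.pi / (2 * (16 * (a ^ 2 + 1)))) ≤ a * (1 / (2 * (a + 1))) :=
        mul_le_mul_of_nonneg_left h2 ha
    _ ≤ 1 / 2 := by
        rw [mul_one_div, div_le_div_iff₀ (by positivity) (by norm_num)]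
        linarith

theorem main (hKB : S_KB) : S_PIC := by
  intro d S K H c h hS hd
  have hS0 : 0 < S := by linarith
  obtain ⟨l, hl, hsmall⟩ := kap_small (d * |K|) (by positivity)
  have hadm := pic_adm hKB hS0 hd
  set N : ℝ := (|H| * Real.exp (l * S)) * kap l with hN
  have hk0 : 0 ≤ kap l := Real.sqrt_nonneg _
  have hN0 : 0 ≤ N := by positivity
  have hstep : ∀ n t x i, |pic S c h (n + 1) t x i - pic S c h n t x i| ≤
      (N * (1 / 2) ^ n) * Real.exp (-l * t) := by
    intro n
    induction n with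
    | zero =>
      intro t x i
      change |Vel S (FF c h (pic S c h 0)) i t x - 0| ≤ _
      rw [sub_zero, pow_zero, mul_one]
      have h1 : ∀ t x, |FF c h (pic S c h 0) t x| ≤ (|H| * Real.exp (l * S)) *
          Real.exp (-l * t) := by
        intro t x
        have h2 : FF c h (pic S c h 0) t x = h t x := by
          unfold FF
          simp [pic]
        rw [h2]
        by_cases ht : S ≤ t
        · rw [hd.sh t (Or.inr ht) x, abs_zero]
          positivity
        · push Not at ht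
          have h3 : 1 ≤ Real.exp (l * S) * Real.exp (-l * t) := by
            rw [← Real.exp_add]
            apply Real.one_le_exp
            nlinarith
          calc |h t x| ≤ |H| * 1 := by
                rw [mul_one]
                exact (hd.bh t x).trans (le_abs_self H)
            _ ≤ |H| * (Real.exp (l * S) * Real.exp (-l * t)) :=
                mul_le_mul_of_nonneg_left h3 (abs_nonneg H)
            _ = _ := by ring
      exact vel_wt S _ l _ hl (by positivity) h1 i t x
    | succ n ih =>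
      intro t x i
      have h1 := vel_ff_sub hd hl (by positivity) hsmall (hadm (n + 1)) (hadm n) ih t x i
      refine h1.trans (le_of_eq ?_)
      rw [pow_succ]
      ring
  -- convergence
  have hdist : ∀ t x i n, dist (pic S c h n t x i) (pic S c h (n + 1) t x i) ≤
      (N * Real.exp (-l * t)) * (1 / 2) ^ n := by
    intro t x i n
    rw [dist_comm, Real.dist_eq]
    refine (hstep n t x i).trans (le_of_eq (by ring))
  have hlim : ∀ t x i, ∃ y, Tendsto (fun n => pic S c h n t x i) atTop (𝓝 y) := by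
    intro t x i
    exact cauchySeq_tendsto_of_complete
      (cauchySeq_of_le_geometric (1 / 2) _ (by norm_num) (hdist t x i))
  choose v hv using hlim
  have hvd : ∀ n t x i, |pic S c h n t x i - v t x i| ≤
      (2 * N * (1 / 2) ^ n) * Real.exp (-l * t) := by
    intro n t x i
    have h1 := dist_le_of_le_geometric_of_tendsto (1 / 2) _ (by norm_num) (hdist t x i) (hv t x i) n
    rw [Real.dist_eq] at h1
    refine h1.trans (le_of_eq ?_)
    ring
  have hvm : Measurable (U v) := by
    refine measurable_pi_iff.2 fun i => ?_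
    refine measurable_of_tendsto_metrizable (f := fun n z => U (pic S c h n) z i)
      (fun n => (measurable_pi_apply i).comp (hadm n).meas) ?_
    rw [tendsto_pi_nhds]
    intro z
    exact hv z.1 z.2 i
  have hvp : ∀ t, Per (v t) := by
    intro t x k
    funext i
    have h1 := hv t (fun i => x i + (k i : ℝ)) i
    have h2 : (fun n => pic S c h n t (fun i => x i + (k i : ℝ)) i) =
        fun n => pic S c h n t x i := by
      funext n
      rw [(hadm n).per t x k]
    rw [h2] at h1
    exact tendsto_nhds_unique h1 (hv t x i)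
  have hneg : ∀ n t x i, t ≤ -S → pic S c h n t x i = 0 := by
    intro n t x i ht
    cases n with
    | zero => rfl
    | succ n =>
      change Vel S (FF c h (pic S c h n)) i t x = 0
      refine vel_zero S _ t (fun r hr y => ?_) i x
      exact (ff_src hd (hadm n)).supp _ (Or.inl (by linarith [hr.2])) y
  have hvb : ∀ t x i, |v t x i| ≤ 2 * N * Real.exp (l * S) := by
    intro t x i
    by_cases ht : t ≤ -S
    · have h1 : v t x i = 0 := by
        refine tendsto_nhds_unique (hv t x i) ?_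
        have h2 : (fun n => pic S c h n t x i) = fun _ => (0 : ℝ) := by
          funext n
          exact hneg n t x i ht
        rw [h2]
        exact tendsto_const_nhds
      rw [h1, abs_zero]
      positivity
    · push Not at ht
      have h1 := hvd 0 t x i
      have h2 : pic S c h 0 t x i = 0 := rfl
      rw [h2, zero_sub, abs_neg, pow_zero, mul_one] at h1
      refine h1.trans (mul_le_mul_of_nonneg_left (Real.exp_le_exp.2 ?_) (by positivity))
      nlinarith
  have hva : Adm v := ⟨hvm, hvp, ⟨_, hvb⟩⟩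
  refine ⟨v, ⟨hd, hvm, hvp, ⟨_, hvb⟩, ?_⟩⟩
  intro t x i
  -- the equation
  have h1 : Tendsto (fun n => pic S c h (n + 1) t x i) atTop (𝓝 (Vel S (FF c h v) i t x)) := by
    rw [tendsto_iff_dist_tendsto_zero]
    have h2 : Tendsto (fun n : ℕ => (2 * N * (1 / 2) ^ n) / 2 * Real.exp (-l * t)) atTop
        (𝓝 ((2 * N * 0) / 2 * Real.exp (-l * t))) := by
      refine Tendsto.mul_const _ (Tendsto.div_const (Tendsto.const_mul _ ?_) _)
      exact tendsto_pow_atTop_nhds_zero_of_lt_one (by norm_num) (by norm_num)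
    rw [mul_zero, zero_div, zero_mul] at h2
    refine squeeze_zero (fun _ => dist_nonneg) (fun n => ?_) h2
    rw [Real.dist_eq]
    exact vel_ff_sub hd hl (by positivity) hsmall (hadm n) hva (hvd n) t x i
  exact tendsto_nhds_unique ((tendsto_add_atTop_iff_nat 1).2 (hv t x i)) h1

end Pool.Agent.Helper19.ND.PIC
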