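import Pool.Agent.Helper28.ND.Spec

/-!
# ND: tools for the potentials
-/

set_option autoImplicit false

namespace Pool.Agent.Helper19.ND

open Pool.Agent.Helper28.ND MeasureTheory Set Filter Topology ProbabilityTheory

instance gam_prob (d : ℕ) : IsProbabilityMeasure (gam d) := by
  unfold gam
  infer_instance

theorem g_abs : Integrable (fun y : ℝ => |y|) (gaussianReal 0 1) ∧
    ∫ y, |y| ∂(gaussianReal 0 1) ≤ 1 := by
  have h1 : Integrable (fun y : ℝ => y) (gaussianReal 0 1) :=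
    (memLp_id_gaussianReal (μ := 0) (v := 1) 1).integrable (by norm_num)
  have h2 : Integrable (fun y : ℝ => y ^ 2) (gaussianReal 0 1) :=
    (memLp_id_gaussianReal (μ := 0) (v := 1) 2).integrable_sq
  have h3 : ∫ y, y ^ 2 ∂(gaussianReal 0 1) = 1 := by
    have h4 := variance_fun_id_gaussianReal (μ := 0) (v := 1)
    rw [variance_of_integral_eq_zero (by fun_prop) integral_id_gaussianReal] at h4
    simpa using h4
  refine ⟨h1.abs, ?_⟩
  calc ∫ y, |y| ∂(gaussianReal 0 1) ≤ ∫ y, (1 + y ^ 2) / 2 ∂(gaussianReal 0 1) := by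
        refine integral_mono h1.abs (((integrable_const 1).add h2).div_const 2) fun y => ?_
        nlinarith [sq_abs y, sq_nonneg (|y| - 1)]
    _ = 1 := by
        rw [integral_div, integral_add (integrable_const 1) h2, h3]
        simp

theorem abs_int (d : ℕ) (i : Fin d) : Integrable (fun z : Fin d → ℝ => |z i|) (gam d) ∧
    ∫ z, |z i| ∂(gam d) ≤ 1 := by
  have mp : MeasurePreserving (Function.eval i) (gam d) (gaussianReal 0 1) :=
    measurePreserving_eval (fun _ : Fin d => gaussianReal 0 1) i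
  constructor
  · exact (mp.integrable_comp (g := fun y : ℝ => |y|) (by fun_prop)).2 g_abs.1
  · have h1 : ∫ z, |z i| ∂(gam d) = ∫ y, |y| ∂(gaussianReal 0 1) := by
      rw [← mp.map_eq, integral_map (measurable_pi_apply i).aemeasurable (by fun_prop)]
    rw [h1]
    exact g_abs.2

/-- the weight -/
noncomputable def kap (l : ℝ) : ℝ := Real.sqrt (Real.pi / (2 * l))

theorem wt_int (l : ℝ) (hl : 0 < l) :
    IntegrableOn (fun r : ℝ => (Real.sqrt (2 * r))⁻¹ * Real.exp (-l * r)) (Ioi 0) ∧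
    ∫ r in Ioi (0 : ℝ), (Real.sqrt (2 * r))⁻¹ * Real.exp (-l * r) = kap l := by
  have h1 : ∀ r ∈ Ioi (0 : ℝ), (Real.sqrt (2 * r))⁻¹ * Real.exp (-l * r) =
      (Real.sqrt 2)⁻¹ * (r ^ ((1 / 2 : ℝ) - 1) * Real.exp (-(l * r))) := by
    intro r hr
    have hr' : 0 < r := hr
    rw [Real.sqrt_mul (by norm_num), mul_inv, Real.sqrt_eq_rpow r, ← Real.rpow_neg hr'.le]
    norm_num
    ring
  have h2 : IntegrableOn (fun r : ℝ => r ^ ((1 / 2 : ℝ) - 1) * Real.exp (-(l * r))) (Ioi 0) := by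
    have h3 := integrableOn_rpow_mul_exp_neg_mul_rpow (p := 1) (s := (1 / 2 : ℝ) - 1) (b := l)
      (by norm_num) (by norm_num) hl
    refine h3.congr_fun (fun r _ => ?_) measurableSet_Ioi
    simp
  constructor
  · exact IntegrableOn.congr_fun (h2.const_mul (Real.sqrt 2)⁻¹) (fun r hr => (h1 r hr).symm)
      measurableSet_Ioi
  · rw [setIntegral_congr_fun measurableSet_Ioi h1, integral_const_mul,
      Real.integral_rpow_mul_exp_neg_mul_Ioi (by norm_num) hl, Real.Gamma_one_half_eq]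
    unfold kap
    rw [← Real.sqrt_eq_rpow, Real.sqrt_div Real.pi_pos.le, Real.sqrt_mul (by norm_num),
      one_div, Real.sqrt_inv]
    field_simp

theorem wt_le (l S : ℝ) (hl : 0 < l) :
    IntegrableOn (fun r : ℝ => (Real.sqrt (2 * r))⁻¹ * Real.exp (-l * r)) (Ioo 0 S) ∧
    ∫ r in Ioo (0 : ℝ) S, (Real.sqrt (2 * r))⁻¹ * Real.exp (-l * r) ≤ kap l := by
  have h1 := wt_int l hl
  have hsub : Ioo (0 : ℝ) S ⊆ Ioi 0 := fun r hr => hr.1
  refine ⟨h1.1.mono_set hsub, ?_⟩
  rw [← h1.2]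
  refine setIntegral_mono_set h1.1 ?_ (Eventually.of_forall hsub)
  exact Eventually.of_forall fun r => by positivity

/-- weighted bound -/
theorem vel_wt {d : ℕ} (S : ℝ) (F : ℝ → (Fin d → ℝ) → ℝ) (l M : ℝ) (hl : 0 < l) (hM : 0 ≤ M)
    (hF : ∀ t x, |F t x| ≤ M * Real.exp (-l * t)) (i : Fin d) (t : ℝ) (x : Fin d → ℝ) :
    |Vel S F i t x| ≤ M * kap l * Real.exp (-l * t) := by
  unfold Vel
  have h1 : ∀ r ∈ Ioo (0 : ℝ) S, ‖∫ z, (z i / Real.sqrt (2 * r)) *
      F (t + r) (x + Real.sqrt (2 * r) • z) ∂(gam d)‖ ≤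
      (M * Real.exp (-l * t)) * ((Real.sqrt (2 * r))⁻¹ * Real.exp (-l * r)) := by
    intro r hr
    have hr0 : 0 < r := hr.1
    have h2 : ∀ z : Fin d → ℝ, ‖(z i / Real.sqrt (2 * r)) *
        F (t + r) (x + Real.sqrt (2 * r) • z)‖ ≤
        ((M * Real.exp (-l * t)) * ((Real.sqrt (2 * r))⁻¹ * Real.exp (-l * r))) * |z i| := by
      intro z
      rw [norm_mul, norm_div, Real.norm_eq_abs, Real.norm_eq_abs, Real.norm_eq_abs,
        abs_of_nonneg (Real.sqrt_nonneg (2 * r)), div_eq_mul_inv]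
      have h3 := hF (t + r) (x + Real.sqrt (2 * r) • z)
      have h4 : Real.exp (-l * (t + r)) = Real.exp (-l * t) * Real.exp (-l * r) := by
        rw [← Real.exp_add]
        ring_nf
      rw [h4] at h3
      calc |z i| * (Real.sqrt (2 * r))⁻¹ * |F (t + r) (x + Real.sqrt (2 * r) • z)|
          ≤ |z i| * (Real.sqrt (2 * r))⁻¹ * (M * (Real.exp (-l * t) * Real.exp (-l * r))) :=
            mul_le_mul_of_nonneg_left h3 (by positivity)
        _ = _ := by ring
    refine le_trans (norm_integral_le_of_norm_le ((abs_int d i).1.const_mul _)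
      (Eventually.of_forall h2)) ?_
    rw [integral_const_mul]
    exact mul_le_of_le_one_right (by positivity) (abs_int d i).2
  have h5 := norm_integral_le_of_norm_le (μ := volume.restrict (Ioo (0 : ℝ) S))
    ((wt_le l S hl).1.const_mul (M * Real.exp (-l * t)))
    ((ae_restrict_iff' measurableSet_Ioo).2 (Eventually.of_forall h1))
  rw [integral_const_mul] at h5
  rw [← Real.norm_eq_abs]
  refine h5.trans ?_
  calc M * Real.exp (-l * t) * ∫ r in Ioo (0 : ℝ) S, (Real.sqrt (2 * r))⁻¹ * Real.exp (-l * r)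
      ≤ M * Real.exp (-l * t) * kap l :=
        mul_le_mul_of_nonneg_left (wt_le l S hl).2 (by positivity)
    _ = _ := by ring

theorem inner_int {d : ℕ} (F : ℝ → (Fin d → ℝ) → ℝ) (hF : Measurable (U F))
    (B : ℝ) (hB : ∀ t x, |F t x| ≤ B) (i : Fin d) (t r : ℝ) (x : Fin d → ℝ) :
    Integrable (fun z : Fin d → ℝ => (z i / Real.sqrt (2 * r)) *
      F (t + r) (x + Real.sqrt (2 * r) • z)) (gam d) := by
  have hm : Measurable fun z : Fin d → ℝ => F (t + r) (x + Real.sqrt (2 * r) • z) := by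
    have : (fun z : Fin d → ℝ => F (t + r) (x + Real.sqrt (2 * r) • z)) =
      U F ∘ fun z : Fin d → ℝ => ((t + r, x + Real.sqrt (2 * r) • z) : ℝ × (Fin d → ℝ)) := rfl
    rw [this]
    exact hF.comp (by fun_prop)
  refine Integrable.mono' ((abs_int d i).1.const_mul ((Real.sqrt (2 * r))⁻¹ * B)) ?_
    (Eventually.of_forall fun z => ?_)
  · exact ((by fun_prop : Measurable fun z : Fin d → ℝ => z i / Real.sqrt (2 * r)).mul
      hm).aestronglyMeasurable
  · rw [norm_mul, norm_div, Real.norm_eq_abs, Real.norm_eq_abs, Real.norm_eq_abs,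
      abs_of_nonneg (Real.sqrt_nonneg (2 * r)), div_eq_mul_inv]
    calc |z i| * (Real.sqrt (2 * r))⁻¹ * |F (t + r) (x + Real.sqrt (2 * r) • z)|
        ≤ |z i| * (Real.sqrt (2 * r))⁻¹ * B :=
          mul_le_mul_of_nonneg_left (hB _ _) (by positivity)
      _ = _ := by ring

theorem outer_int {d : ℕ} (S : ℝ) (F : ℝ → (Fin d → ℝ) → ℝ) (hF : Measurable (U F))
    (B : ℝ) (hB : ∀ t x, |F t x| ≤ B) (i : Fin d) (t : ℝ) (x : Fin d → ℝ) :
    IntegrableOn (fun r : ℝ => ∫ z, (z i / Real.sqrt (2 * r)) *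
      F (t + r) (x + Real.sqrt (2 * r) • z) ∂(gam d)) (Ioo 0 S) := by
  have hB0 : 0 ≤ B := le_trans (abs_nonneg _) (hB 0 0)
  have hm : StronglyMeasurable fun p : ℝ × (Fin d → ℝ) => (p.2 i / Real.sqrt (2 * p.1)) *
      F (t + p.1) (x + Real.sqrt (2 * p.1) • p.2) := by
    refine Measurable.stronglyMeasurable ?_
    refine Measurable.mul (by fun_prop) ?_
    have : (fun p : ℝ × (Fin d → ℝ) => F (t + p.1) (x + Real.sqrt (2 * p.1) • p.2)) =
      U F ∘ fun p : ℝ × (Fin d → ℝ) =>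
        ((t + p.1, x + Real.sqrt (2 * p.1) • p.2) : ℝ × (Fin d → ℝ)) := rfl
    rw [this]
    exact hF.comp (by fun_prop)
  have hm2 := hm.integral_prod_right' (ν := gam d)
  have hg : IntegrableOn (fun r : ℝ => (B * Real.exp (1 * S)) *
      ((Real.sqrt (2 * r))⁻¹ * Real.exp (-1 * r))) (Ioo 0 S) :=
    (wt_le 1 S one_pos).1.const_mul _
  refine Integrable.mono' hg hm2.aestronglyMeasurable ?_
  refine (ae_restrict_iff' measurableSet_Ioo).2 (Eventually.of_forall fun r hr => ?_)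
  have h2 : ∀ z : Fin d → ℝ, ‖(z i / Real.sqrt (2 * r)) *
      F (t + r) (x + Real.sqrt (2 * r) • z)‖ ≤ ((Real.sqrt (2 * r))⁻¹ * B) * |z i| := by
    intro z
    rw [norm_mul, norm_div, Real.norm_eq_abs, Real.norm_eq_abs, Real.norm_eq_abs,
      abs_of_nonneg (Real.sqrt_nonneg (2 * r)), div_eq_mul_inv]
    calc |z i| * (Real.sqrt (2 * r))⁻¹ * |F (t + r) (x + Real.sqrt (2 * r) • z)|
        ≤ |z i| * (Real.sqrt (2 * r))⁻¹ * B :=
          mul_le_mul_of_nonneg_left (hB _ _) (by positivity)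
      _ = _ := by ring
  refine le_trans (norm_integral_le_of_norm_le ((abs_int d i).1.const_mul _)
    (Eventually.of_forall h2)) ?_
  rw [integral_const_mul]
  have h3 : 1 ≤ Real.exp (1 * S) * Real.exp (-1 * r) := by
    rw [← Real.exp_add]
    apply Real.one_le_exp
    linarith [hr.2]
  calc (Real.sqrt (2 * r))⁻¹ * B * ∫ z, |z i| ∂(gam d)
      ≤ (Real.sqrt (2 * r))⁻¹ * B * 1 :=
        mul_le_mul_of_nonneg_left (abs_int d i).2 (by positivity)
    _ ≤ (Real.sqrt (2 * r))⁻¹ * B * (Real.exp (1 * S) * Real.exp (-1 * r)) :=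
        mul_le_mul_of_nonneg_left h3 (by positivity)
    _ = _ := by ring

/-- linearity -/
theorem vel_sub {d : ℕ} (S : ℝ) (F G : ℝ → (Fin d → ℝ) → ℝ) (hF : Measurable (U F))
    (hG : Measurable (U G)) (B : ℝ) (hB : ∀ t x, |F t x| ≤ B) (B' : ℝ)
    (hB' : ∀ t x, |G t x| ≤ B') (i : Fin d) (t : ℝ) (x : Fin d → ℝ) :
    Vel S (fun t x => F t x - G t x) i t x = Vel S F i t x - Vel S G i t x := by
  unfold Vel
  rw [← integral_sub (outer_int S F hF B hB i t x) (outer_int S G hG B' hB' i t x)]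
  refine integral_congr_ae (Eventually.of_forall fun r => ?_)
  change _ = (∫ z, (z i / Real.sqrt (2 * r)) * F (t + r) (x + Real.sqrt (2 * r) • z) ∂(gam d)) -
    ∫ z, (z i / Real.sqrt (2 * r)) * G (t + r) (x + Real.sqrt (2 * r) • z) ∂(gam d)
  rw [← integral_sub (inner_int F hF B hB i t r x) (inner_int G hG B' hB' i t r x)]
  refine integral_congr_ae (Eventually.of_forall fun z => ?_)
  simp only
  ring

/-- vanishing for negative times -/
theorem vel_zero {d : ℕ} (S : ℝ) (F : ℝ → (Fin d → ℝ) → ℝ) (t : ℝ)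
    (hF : ∀ r ∈ Ioo (0 : ℝ) S, ∀ x, F (t + r) x = 0) (i : Fin d) (x : Fin d → ℝ) :
    Vel S F i t x = 0 := by
  unfold Vel
  rw [setIntegral_congr_fun (g := fun _ => (0 : ℝ)) measurableSet_Ioo fun r hr => ?_]
  · simp
  · simp only
    have : ∀ z : Fin d → ℝ, (z i / Real.sqrt (2 * r)) *
        F (t + r) (x + Real.sqrt (2 * r) • z) = 0 := by
      intro z
      rw [hF r hr, mul_zero]
    simp only [this, integral_zero]

end Pool.Agent.Helper19.ND
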